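import Pool.Agent.R940.UDefs

/-!
# Generation of the cohomology in small degrees: definitions
-/

open CategoryTheory AlgebraicGeometry

universe u v

namespace Pool.Agent.L7h94.GP

open Pool.Agent.H914 Pool.Agent.W534 VarClass Obj WeilCohomology Polynomial

variable {k : Type u} [Field k] {𝒱 : VarClass k} {ops : CycleOps 𝒱}

/-- The cohomology algebra of `X` is generated by the classes of degree at most `w`. -/
def GeneratedInDegree (W : WeilCohomology.{u, v} ops) (X : 𝒱.Obj) (w : ℕ) : Prop :=
  Algebra.adjoin W.K {x : W.H X | ∃ i, i ≤ w ∧ x ∈ W.gr X i} = ⊤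

/-- The sum `b_1 + ... + b_w` of Betti numbers of `X`. -/
noncomputable def bettiUpTo (W : WeilCohomology.{u, v} ops) (X : 𝒱.Obj) (w : ℕ) : ℕ :=
  ∑ i ∈ Finset.Icc 1 w, Module.finrank W.K (W.gr X i)

/-- The number of the conjugacy classes of algebraic numbers which are eigenvalues of the Frobenius
endomorphism of `X` on one of the groups `H^1(X)`, ..., `H^w(X)` (the number of the minimal
polynomials over the rational numbers of these eigenvalues). -/
noncomputable def numClasses {W : WeilCohomology.{u, v} ops} {p : ℕ} (Φ : FrobSystem W p)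
    (σ : W.K →+* ℂ) (X : 𝒱.Obj) (w : ℕ) : ℕ :=
  Set.ncard {Q : ℚ[X] | ∃ i, 1 ≤ i ∧ i ≤ w ∧ ∃ z : ℂ, (frobPoly Φ σ X 1 i).IsRoot z ∧
    minpoly ℚ z = Q}

end Pool.Agent.L7h94.GP
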