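import Mathlib

/-!
# Siegel's lemma outside a subspace
-/

set_option autoImplicit false
set_option linter.unusedSectionVars false

namespace Pool.Agent.L7h94.GP

open Finset Module

/-- A subspace of the space of functions is determined by few coordinates. -/
theorem exists_coord_subset {β : Type} [Fintype β] (M : Submodule ℚ (β → ℚ)) :
    ∃ J : Finset β, J.card ≤ finrank ℚ M ∧ ∀ u ∈ M, (∀ j ∈ J, u j = 0) → u = 0 := by
  classical
  let e : β → Module.Dual ℚ M := fun j => (LinearMap.proj j).domRestrict M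
  obtain ⟨κ, a, ha, hspan, hli⟩ := exists_linearIndependent' ℚ e
  have hκf : Finite κ := Finite.of_injective a ha
  have : Fintype κ := Fintype.ofFinite κ
  refine ⟨univ.image a, ?_, ?_⟩
  · refine card_image_le.trans ?_
    rw [card_univ]
    have h1 := hli.fintype_card_le_finrank
    rwa [Subspace.dual_finrank_eq] at h1
  · intro u hu h
    have h1 : ∀ f ∈ Submodule.span ℚ (Set.range e), f ⟨u, hu⟩ = 0 := by
      rw [← hspan]
      intro f hf
      induction hf using Submodule.span_induction with
      | mem x hx =>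
        obtain ⟨i, rfl⟩ := hx
        exact h (a i) (mem_image_of_mem a (mem_univ i))
      | zero => rfl
      | add x y _ _ hx hy => rw [LinearMap.add_apply, hx, hy, add_zero]
      | smul c x _ hx => rw [LinearMap.smul_apply, hx, smul_zero]
    funext j
    exact h1 (e j) (Submodule.subset_span ⟨j, rfl⟩)

/-- **Siegel's lemma outside a subspace.** -/
theorem siegel_outside {α β : Type} [Fintype β] [DecidableEq β] (A : Matrix α β ℤ)
    (B : ℕ) (hB : 1 ≤ B) (hA : ∀ i j, |A i j| ≤ B) (s κ : ℕ) (hs : 1 ≤ s)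
    (hκ : Fintype.card β ≤ κ * s) (M : Submodule ℚ (β → ℚ)) (L : Submodule ℚ (β → ℚ))
    (hL : ∀ u ∈ L, ∀ i, ∑ j, (A i j : ℚ) * u j = 0)
    (hM : finrank ℚ M + s ≤ finrank ℚ L) :
    ∃ v : β → ℤ, (∀ i, ∑ j, A i j * v j = 0) ∧ (fun j => (v j : ℚ)) ∉ M ∧
      ∀ j, |v j| ≤ ((Fintype.card β * B) ^ κ : ℕ) := by
  classical
  set row : α → β → ℚ := fun i j => (A i j : ℚ) with hrow
  obtain ⟨f', hf'm, hf's, hf'i⟩ := Submodule.exists_fun_fin_finrank_span_eq ℚ (Set.range row)
  generalize hr : finrank ℚ (Submodule.span ℚ (Set.range row)) = r at f' hf'm hf's hf'i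
  choose σ hσ using hf'm
  -- the dimension count
  have hrL : r + finrank ℚ L ≤ Fintype.card β := by
    let Ψ : (β → ℚ) →ₗ[ℚ] (Fin r → ℚ) :=
      LinearMap.pi fun k => ∑ j, row (σ k) j • LinearMap.proj j
    have hΨ : ∀ u k, Ψ u k = ∑ j, row (σ k) j * u j := by
      intro u k
      simp [Ψ, LinearMap.sum_apply]
    have hΨL : L ≤ LinearMap.ker Ψ := by
      intro u hu
      rw [LinearMap.mem_ker]
      funext k
      rw [hΨ]
      exact hL u hu (σ k)
    have hsurj : LinearMap.range Ψ = ⊤ := by
      by_contra hne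
      obtain ⟨φ, hφ0, hφ⟩ := Submodule.exists_le_ker_of_lt_top _ (lt_top_iff_ne_top.2 hne)
      apply hφ0
      have h1 : ∀ k, φ (Pi.single k 1) = 0 := by
        have h2 : ∑ k, φ (Pi.single k 1) • f' k = 0 := by
          funext j
          have h3 : φ (Ψ (Pi.single j 1)) = 0 := hφ ⟨_, rfl⟩
          have h4 : Ψ (Pi.single j 1) = ∑ k, (f' k j) • (Pi.single k (1 : ℚ) : Fin r → ℚ) := by
            funext k
            rw [hΨ, Finset.sum_apply]
            have h5 : ∀ k', ((f' k' j) • (Pi.single k' (1 : ℚ) : Fin r → ℚ)) k =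
                if k' = k then f' k' j else 0 := by
              intro k'
              rw [Pi.smul_apply, Pi.single_apply, smul_eq_mul]
              split_ifs with h6 h7 h7
              · rw [mul_one]
              · exact absurd h6.symm h7
              · exact absurd h7.symm h6
              · rw [mul_zero]
            rw [Finset.sum_congr rfl fun k' _ => h5 k', Finset.sum_ite_eq' , if_pos (mem_univ _)]
            rw [Finset.sum_eq_single j]
            · rw [Pi.single_eq_same, mul_one, ← hσ k]
            · intro j' _ hj'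
              rw [Pi.single_eq_of_ne hj', mul_zero]
            · intro h; exact absurd (mem_univ _) h
          rw [h4, map_sum] at h3
          simp only [map_smul, smul_eq_mul] at h3
          rw [Finset.sum_apply]
          simp only [Pi.smul_apply, smul_eq_mul, Pi.zero_apply]
          rw [← h3]
          exact Finset.sum_congr rfl fun k _ => mul_comm _ _
        exact Fintype.linearIndependent_iff.1 hf'i _ h2
      refine LinearMap.ext fun w => ?_
      have h2 : w = ∑ k, w k • (Pi.single k (1 : ℚ) : Fin r → ℚ) := by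
        funext k
        rw [Finset.sum_apply, Finset.sum_eq_single k]
        · rw [Pi.smul_apply, Pi.single_eq_same, smul_eq_mul, mul_one]
        · intro k' _ hk'
          rw [Pi.smul_apply, Pi.single_eq_of_ne hk'.symm, smul_zero]
        · intro h; exact absurd (mem_univ _) h
      rw [h2, map_sum, LinearMap.zero_apply]
      exact Finset.sum_eq_zero fun k _ => by rw [map_smul, h1, smul_zero]
    have h1 := LinearMap.finrank_range_add_finrank_ker Ψ
    rw [hsurj, finrank_top, Module.finrank_fintype_fun_eq_card, Fintype.card_fin,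
      Module.finrank_fintype_fun_eq_card] at h1
    have h2 := Submodule.finrank_mono hΨL
    omega
  obtain ⟨J, hJ, hJM⟩ := exists_coord_subset M
  have hβ1 : 1 ≤ Fintype.card β := by omega
  have hβB : 1 ≤ Fintype.card β * B := Nat.mul_pos hβ1 hB
  set T : ℕ := (Fintype.card β * B) ^ κ with hT
  set N : ℕ := Fintype.card β * (B * T) with hN
  -- the values of the rows on the box
  let val : (β → Fin (T + 1)) → α → ℤ := fun x i =>
    ∑ j, (A i j * ((x j : ℕ) : ℤ) + max (-(A i j)) 0 * T)
  have hval : ∀ (x : β → Fin (T + 1)) (i : α), 0 ≤ val x i ∧ val x i ≤ (N : ℤ) := by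
    intro x i
    have h1 : ∀ j, 0 ≤ A i j * ((x j : ℕ) : ℤ) + max (-(A i j)) 0 * T ∧
        A i j * ((x j : ℕ) : ℤ) + max (-(A i j)) 0 * T ≤ (B * T : ℤ) := by
      intro j
      have h2 : ((x j : ℕ) : ℤ) ≤ (T : ℤ) := by exact_mod_cast Nat.lt_succ_iff.1 (x j).2
      have h3 : (0 : ℤ) ≤ ((x j : ℕ) : ℤ) := by positivity
      have h4 := abs_le.1 (hA i j)
      have h5 : (0 : ℤ) ≤ T := by positivity
      rcases le_total 0 (A i j) with h6 | h6
      · rw [max_eq_right (by linarith), zero_mul, add_zero]
        exact ⟨mul_nonneg h6 h3, mul_le_mul h4.2 h2 h3 (by positivity)⟩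
      · rw [max_eq_left (by linarith)]
        have h7 : A i j * ((x j : ℕ) : ℤ) + -(A i j) * T = -(A i j) * (T - ((x j : ℕ) : ℤ)) := by
          ring
        rw [h7]
        refine ⟨mul_nonneg (by linarith) (by linarith), ?_⟩
        exact mul_le_mul (by linarith [h4.1]) (by linarith) (by linarith) (by positivity)
    refine ⟨sum_nonneg fun j _ => (h1 j).1, ?_⟩
    refine (sum_le_sum fun j _ => (h1 j).2).trans (le_of_eq ?_)
    rw [sum_const, card_univ, nsmul_eq_mul, hN]
    push_cast
    ring
  let F : (β → Fin (T + 1)) → (Fin r → Fin (N + 1)) × (J → Fin (T + 1)) := fun x =>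
    (fun k => ⟨(val x (σ k)).toNat, by
      have h1 := hval x (σ k)
      omega⟩, fun j => x j)
  have hcard : Fintype.card ((Fin r → Fin (N + 1)) × (J → Fin (T + 1))) <
      Fintype.card (β → Fin (T + 1)) := by
    rw [Fintype.card_prod, Fintype.card_fun, Fintype.card_fun, Fintype.card_fun, Fintype.card_fin,
      Fintype.card_fin, Fintype.card_fin, Fintype.card_coe]
    have hT1 : 1 ≤ T := Nat.one_le_pow _ _ hβB
    have h1 : N + 1 ≤ Fintype.card β * B * (T + 1) := by
      rw [hN]
      have : Fintype.card β * (B * T) = Fintype.card β * B * T := by ring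
      rw [this, mul_add, mul_one]
      omega
    have hr1 : r ≤ κ * s := by omega
    calc (N + 1) ^ r * (T + 1) ^ J.card
        ≤ (Fintype.card β * B * (T + 1)) ^ r * (T + 1) ^ finrank ℚ M :=
          Nat.mul_le_mul (Nat.pow_le_pow_left h1 _) (Nat.pow_le_pow_right (Nat.succ_pos _) hJ)
      _ = (Fintype.card β * B) ^ r * (T + 1) ^ (r + finrank ℚ M) := by
          rw [mul_pow, pow_add]; ring
      _ ≤ (Fintype.card β * B) ^ (κ * s) * (T + 1) ^ (r + finrank ℚ M) :=
          Nat.mul_le_mul_right _ (Nat.pow_le_pow_right hβB hr1)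
      _ = T ^ s * (T + 1) ^ (r + finrank ℚ M) := by rw [pow_mul]
      _ < (T + 1) ^ s * (T + 1) ^ (r + finrank ℚ M) :=
          Nat.mul_lt_mul_of_pos_right (Nat.pow_lt_pow_left (Nat.lt_succ_self T) (by omega))
            (by positivity)
      _ = (T + 1) ^ (s + (r + finrank ℚ M)) := (pow_add _ _ _).symm
      _ ≤ (T + 1) ^ Fintype.card β := Nat.pow_le_pow_right (Nat.succ_pos _) (by omega)
  obtain ⟨x, y, hxy, hF⟩ := Fintype.exists_ne_map_eq_of_card_lt F hcard
  have hF1 : ∀ k, val x (σ k) = val y (σ k) := by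
    intro k
    have h1 := congrArg (fun z => ((z.1 k : Fin (N + 1)) : ℕ)) hF
    have h2 : (val x (σ k)).toNat = (val y (σ k)).toNat := h1
    have h3 := hval x (σ k)
    have h4 := hval y (σ k)
    omega
  have hF2 : ∀ j ∈ J, x j = y j := by
    intro j hj
    exact congrFun (congrArg Prod.snd hF) ⟨j, hj⟩
  let v : β → ℤ := fun j => ((x j : ℕ) : ℤ) - ((y j : ℕ) : ℤ)
  have hvσ : ∀ k, ∑ j, A (σ k) j * v j = 0 := by
    intro k
    have h1 := hF1 k
    simp only [val, sum_add_distrib] at h1
    simp only [v, mul_sub, sum_sub_distrib]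
    linarith
  refine ⟨v, ?_, ?_, ?_⟩
  · intro i
    have h1 : row i ∈ Submodule.span ℚ (Set.range f') := by
      rw [hf's]
      exact Submodule.subset_span ⟨i, rfl⟩
    have h2 : ∀ w ∈ Submodule.span ℚ (Set.range f'), ∑ j, w j * (v j : ℚ) = 0 := by
      intro w hw
      induction hw using Submodule.span_induction with
      | mem x hx =>
        obtain ⟨k, rfl⟩ := hx
        rw [← hσ k]
        have h3 := hvσ k
        have h5 : ((∑ j, A (σ k) j * v j : ℤ) : ℚ) = 0 := by rw [h3]; simp
        push_cast at h5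
        exact h5
      | zero => simp
      | add x y _ _ hx hy =>
        simp only [Pi.add_apply, add_mul, Finset.sum_add_distrib, hx, hy, add_zero]
      | smul a x _ hx =>
        simp only [Pi.smul_apply, smul_eq_mul, mul_assoc, ← Finset.mul_sum, hx, mul_zero]
    have h3 := h2 _ h1
    have h4 : ((∑ j, A i j * v j : ℤ) : ℚ) = 0 := by
      push_cast
      exact h3
    exact_mod_cast h4
  · intro hv
    have h1 := hJM _ hv (fun j hj => by
      change ((((x j : ℕ) : ℤ) - ((y j : ℕ) : ℤ) : ℤ) : ℚ) = 0
      rw [hF2 j hj, sub_self, Int.cast_zero])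
    apply hxy
    funext j
    have h2 := congrFun h1 j
    change ((((x j : ℕ) : ℤ) - ((y j : ℕ) : ℤ) : ℤ) : ℚ) = 0 at h2
    have h3 : ((x j : ℕ) : ℤ) - ((y j : ℕ) : ℤ) = 0 := by exact_mod_cast h2
    apply Fin.ext
    omega
  · intro j
    have h1 := (x j).2
    have h2 := (y j).2
    change |((x j : ℕ) : ℤ) - ((y j : ℕ) : ℤ)| ≤ _
    rw [abs_le]
    constructor <;> push_cast <;> omega

end Pool.Agent.L7h94.GP
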