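import Mathlib
import Pool.Agent.L7h94.FE.Group
import Pool.Agent.L7h94.GP.Pigeon

/-!
# The space of relations is spanned by small integral relations
-/

set_option linter.unusedSectionVars false
set_option linter.unusedVariables false
set_option autoImplicit false

namespace Pool.Agent.L7h94.GP

open Finset Module Real Pool.Agent.TH170.MF Pool.Agent.TH170.QC Pool.Agent.TH170.QE
  Pool.Agent.TH170.FW Pool.Agent.Y1.KN Pool.Agent.Y710.KN Pool.Agent.Y275.KN Pool.Agent.L7h94.FE

variable {G X : Type} [Group G] [Fintype G] [MulAction G X] [Fintype X]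
  {S : Submodule ℚ (X → ℚ)}

/-- The space of the rational odd relations with the translates of `v`. -/
def relSpace (G : Type) {X : Type} [Group G] [MulAction G X] [Fintype X] (c : G) (v : X → ℤ) :
    Submodule ℚ (X → ℚ) where
  carrier := {u | (∀ x, u (c • x) = - u x) ∧ ∀ σ : G, ∑ x, u x * (v (σ • x) : ℚ) = 0}
  add_mem' := by
    rintro a b ⟨ha, ha'⟩ ⟨hb, hb'⟩
    refine ⟨fun x => ?_, fun σ => ?_⟩
    · rw [Pi.add_apply, Pi.add_apply, ha, hb]
      ring
    · simp only [Pi.add_apply, add_mul, sum_add_distrib]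
      rw [ha', hb', add_zero]
  zero_mem' := by
    refine ⟨fun x => ?_, fun σ => ?_⟩ <;> simp
  smul_mem' := by
    rintro r a ⟨ha, ha'⟩
    refine ⟨fun x => ?_, fun σ => ?_⟩
    · rw [Pi.smul_apply, Pi.smul_apply, ha, smul_neg]
    · simp only [Pi.smul_apply, smul_eq_mul, mul_assoc]
      rw [← mul_sum, ha', mul_zero]

/-- The odd integral relations with the translates of `v`. -/
structure IsRelZ (G : Type) {X : Type} [Group G] [MulAction G X] [Fintype X] (c : G)
    (v n : X → ℤ) : Prop where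
  odd : ∀ x, n (c • x) = - n x
  rel : ∀ σ : G, ∑ x, n x * v (σ • x) = 0

theorem IsRelZ.mem {c : G} {v n : X → ℤ} (h : IsRelZ G c v n) :
    (fun x => (n x : ℚ)) ∈ relSpace G c v := by
  refine ⟨fun x => ?_, fun σ => ?_⟩
  · change (n (c • x) : ℚ) = -(n x : ℚ)
    rw [h.odd]
    push_cast
    rfl
  · change ∑ x, (n x : ℚ) * (v (σ • x) : ℚ) = 0
    exact_mod_cast h.rel σ

theorem relSpace_inv {c : G} (hcen : ∀ (γ : G) (x : X), c • γ • x = γ • c • x) (v : X → ℤ) :
    Invariant G (relSpace G c v) := by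
  rintro γ s ⟨h1, h2⟩
  refine ⟨fun x => ?_, fun σ => ?_⟩
  · beta_reduce
    rw [← hcen, h1]
  · have h3 := h2 (σ * γ⁻¹)
    rw [← h3]
    refine Fintype.sum_equiv (MulAction.toPerm γ) _ _ fun x => ?_
    rw [MulAction.toPerm_apply, mul_smul, inv_smul_smul]

/-- The dimensions. -/
theorem finrank_add_le {V : Type} [AddCommGroup V] [Module ℚ V] [FiniteDimensional ℚ V]
    {M S L : Submodule ℚ V} (hM : M ≤ L) (hS : S ≤ L) (h : Disjoint M S) :
    finrank ℚ M + finrank ℚ S ≤ finrank ℚ L := by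
  have h1 := Submodule.finrank_sup_add_finrank_inf_eq M S
  rw [h.eq_bot, finrank_bot, add_zero] at h1
  rw [← h1]
  exact Submodule.finrank_mono (sup_le hM hS)

/-- The direct use of Siegel's lemma. -/
theorem outside_direct {c : G} (hfree : ∀ x : X, c • x ≠ x)
    (hS : S ∈ MinInv G (fun x : X => c • x)) {v : X → ℤ} {D₀ : ℕ} (hD₀ : 1 ≤ D₀)
    (hv1 : ∀ x, |v x| ≤ D₀) {M : Submodule ℚ (X → ℚ)} (hML : M ≤ relSpace G c v)
    (hSL : S ≤ relSpace G c v) (hMS : Disjoint M S) (κ : ℕ)
    (hκ : Fintype.card X ≤ κ * finrank ℚ S) :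
    ∃ n : X → ℤ, IsRelZ G c v n ∧ (fun x => (n x : ℚ)) ∉ M ∧
      ∀ x, |n x| ≤ ((Fintype.card X * D₀) ^ κ : ℕ) := by
  classical
  have hd : 1 ≤ finrank ℚ S := by
    have h1 : finrank ℚ S ≠ 0 := by
      intro h
      exact hS.1 (Submodule.finrank_eq_zero.1 h)
    omega
  let A : Matrix (G ⊕ X) X ℤ := Matrix.of fun i x => Sum.elim (fun σ : G => v (σ • x))
    (fun y : X => (if x = y then (1 : ℤ) else 0) + (if x = c • y then 1 else 0)) i
  have hA : ∀ i j, |A i j| ≤ (D₀ : ℕ) := by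
    intro i x
    rcases i with σ | y
    · exact_mod_cast hv1 (σ • x)
    · have h1 : |(if x = y then (1 : ℤ) else 0) + (if x = c • y then 1 else 0)| ≤ 1 := by
        split_ifs with h1 h2
        · exact absurd (h2.symm.trans h1) (hfree y)
        · norm_num
        · norm_num
        · norm_num
      exact h1.trans (by exact_mod_cast hD₀)
  obtain ⟨n, hn, hnM, hnb⟩ := siegel_outside A D₀ hD₀ hA (finrank ℚ S) κ hd hκ M
    (relSpace G c v) (by
      rintro u ⟨hu1, hu2⟩ i
      rcases i with σ | y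
      · rw [← hu2 σ]
        exact sum_congr rfl fun x _ => mul_comm _ _
      · change ∑ x, (((if x = y then (1 : ℤ) else 0) + (if x = c • y then 1 else 0) : ℤ) : ℚ) *
          u x = 0
        push_cast
        simp only [add_mul, sum_add_distrib, ite_mul, one_mul, zero_mul, Finset.sum_ite_eq',
          mem_univ, if_true]
        rw [hu1]
        ring) (finrank_add_le hML hSL hMS)
  refine ⟨n, ⟨fun y => ?_, fun σ => ?_⟩, hnM, fun x => ?_⟩
  · have h1 := hn (Sum.inr y)
    change ∑ x, ((if x = y then (1 : ℤ) else 0) + (if x = c • y then 1 else 0)) * n x = 0 at h1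
    simp only [add_mul, sum_add_distrib, ite_mul, one_mul, zero_mul, Finset.sum_ite_eq',
      mem_univ, if_true] at h1
    linarith
  · have h1 := hn (Sum.inl σ)
    change ∑ x, v (σ • x) * n x = 0 at h1
    rw [← h1]
    exact sum_congr rfl fun x _ => mul_comm _ _
  · exact hnb x

/-- The use of Siegel's lemma in the isotypic component. -/
theorem outside_isotypic {c : G} (hfree : ∀ x : X, c • x ≠ x)
    (hS : S ∈ MinInv G (fun x : X => c • x)) {v : X → ℤ} {D₀ : ℕ} (hD₀ : 1 ≤ D₀)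
    (hv1 : ∀ x, |v x| ≤ D₀) {M : Submodule ℚ (X → ℚ)} (hML : M ≤ relSpace G c v)
    (hSL : S ≤ relSpace G c v) (hMS : Disjoint M S) (κ M₀ : ℕ)
    (hκ : finrank ℚ (LinearMap.range (Top G S)) ≤ κ * finrank ℚ S)
    (hM₀ : Nat.card (G ⧸ kerN G S) ≤ M₀) :
    ∃ n : X → ℤ, IsRelZ G c v n ∧ (fun x => (n x : ℚ)) ∉ M ∧
      ∀ x, |n x| ≤ ((Fintype.card X ^ 3 * M₀ * D₀) ^ (κ + 1) : ℕ) := by
  classical
  have hinv : Invariant G S := hS.2.1
  set D := Fintype.card X with hD
  have hd : 1 ≤ finrank ℚ S := by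
    have h1 : finrank ℚ S ≠ 0 := by
      intro h
      exact hS.1 (Submodule.finrank_eq_zero.1 h)
    omega
  have hdD : finrank ℚ S ≤ D := by
    have h1 := Submodule.finrank_le S
    rwa [Module.finrank_fintype_fun_eq_card] at h1
  have hM1 : 1 ≤ M₀ := le_trans Nat.card_pos hM₀
  -- a basis among the vectors `wq`
  obtain ⟨β, a, ha, hspan, hli⟩ := exists_linearIndependent' ℚ (wq G S)
  have hβf : Finite β := Finite.of_injective a ha
  have : Fintype β := Fintype.ofFinite β
  have hβD : Fintype.card β ≤ D := Fintype.card_le_of_injective a ha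
  have hle : LinearMap.range (Top G S) ≤ Submodule.span ℚ (Set.range (wq G S ∘ a)) := by
    rw [hspan]
    exact range_le_span hinv
  have hβκ : Fintype.card β ≤ κ * finrank ℚ S := by
    refine le_trans ?_ hκ
    have h1 : finrank ℚ (Submodule.span ℚ (Set.range (wq G S ∘ a))) = Fintype.card β :=
      finrank_span_eq_card hli
    rw [← h1]
    refine Submodule.finrank_mono ?_
    rw [Submodule.span_le]
    rintro _ ⟨i, rfl⟩
    exact wq_mem hinv _
  -- the coordinates
  have hSV : S ≤ Submodule.span ℚ (Set.range (wq G S ∘ a)) := by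
    intro s hs
    refine hle ?_
    -- the operator is bijective on `S`
    let z : Module.End ℚ S := (Top G S).restrict fun u hu => Top_mem hinv hu
    have hz : Function.Injective z := by
      rw [← LinearMap.ker_eq_bot, LinearMap.ker_eq_bot']
      intro u hu
      exact Subtype.ext (Top_injOn hS u.2 (congrArg Subtype.val hu))
    obtain ⟨u, hu⟩ := (LinearMap.injective_iff_surjective.1 hz) ⟨s, hs⟩
    exact ⟨(u : X → ℚ), congrArg Subtype.val hu⟩
  let φ : (β → ℚ) →ₗ[ℚ] (X → ℚ) := Fintype.linearCombination ℚ (wq G S ∘ a)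
  have hφ : ∀ z, φ z = ∑ i, z i • wq G S (a i) := fun z => rfl
  have hφi : Function.Injective φ := by
    rw [← LinearMap.ker_eq_bot, LinearMap.ker_eq_bot']
    intro z hz
    funext i
    exact (Fintype.linearIndependent_iff.1 hli) z hz i
  have hSr : S ≤ LinearMap.range φ := by
    rw [Fintype.range_linearCombination]
    exact hSV
  have hfS : finrank ℚ (S.comap φ) = finrank ℚ S := by
    have h1 := (Submodule.equivMapOfInjective φ hφi (S.comap φ)).finrank_eq
    rw [h1, Submodule.map_comap_eq, inf_eq_right.2 hSr]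
  have hdisj : Disjoint (M.comap φ) (S.comap φ) := by
    rw [Submodule.disjoint_def]
    intro z h1 h2
    apply hφi
    rw [map_zero]
    exact (Submodule.disjoint_def.1 hMS) _ h1 h2
  set B : ℕ := D * (M₀ * finrank ℚ S * D₀) with hB
  have hw : ∀ x y, |wv G S x y| ≤ (M₀ * finrank ℚ S : ℕ) := by
    intro x y
    refine (abs_wv_le hinv x y).trans ?_
    exact_mod_cast Nat.mul_le_mul_right _ hM₀
  let A : Matrix G β ℤ := Matrix.of fun σ i => ∑ x, wv G S (a i) x * v (σ • x)
  have hA : ∀ σ i, |A σ i| ≤ (B : ℤ) := by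
    intro σ i
    refine (abs_sum_le_sum_abs _ _).trans ?_
    have h1 : ∀ x ∈ (univ : Finset X), |wv G S (a i) x * v (σ • x)| ≤
        ((M₀ * finrank ℚ S * D₀ : ℕ) : ℤ) := by
      intro x _
      rw [abs_mul]
      calc |wv G S (a i) x| * |v (σ • x)| ≤ ((M₀ * finrank ℚ S : ℕ) : ℤ) * D₀ :=
            mul_le_mul (hw _ _) (hv1 _) (abs_nonneg _) (by positivity)
        _ = _ := by push_cast; ring
    refine (sum_le_sum h1).trans ?_
    rw [sum_const, card_univ, nsmul_eq_mul, hB]
    push_cast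
    rw [hD]
  have hX0 : 1 ≤ D := le_trans hd hdD
  have hB1 : 1 ≤ B := Nat.mul_pos hX0 (Nat.mul_pos (Nat.mul_pos hM1 hd) hD₀)
  obtain ⟨z, hz, hzM, hzb⟩ := siegel_outside A B hB1 hA (finrank ℚ S) κ hd hβκ
    (M.comap φ) ((relSpace G c v).comap φ) (by
      intro u hu σ
      have h1 := hu.2 σ
      rw [← h1, hφ]
      change ∑ i, ((∑ x, wv G S (a i) x * v (σ • x) : ℤ) : ℚ) * u i = _
      push_cast
      simp only [Finset.sum_apply, Pi.smul_apply, smul_eq_mul, sum_mul]
      rw [sum_comm]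
      refine sum_congr rfl fun x _ => sum_congr rfl fun i _ => ?_
      rw [wq]
      ring) (by
      rw [← hfS]
      exact finrank_add_le (Submodule.comap_mono hML) (Submodule.comap_mono hSL) hdisj)
  have hnq : ∀ x, ((∑ i, z i * wv G S (a i) x : ℤ) : ℚ) = φ (fun i => (z i : ℚ)) x := by
    intro x
    rw [hφ, Finset.sum_apply]
    push_cast
    rfl
  refine ⟨fun x => ∑ i, z i * wv G S (a i) x, ⟨fun x => ?_, fun σ => ?_⟩, ?_, fun x => ?_⟩
  · have h1 : φ (fun i => (z i : ℚ)) (c • x) = - φ (fun i => (z i : ℚ)) x := by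
      rw [hφ, Finset.sum_apply, Finset.sum_apply, ← sum_neg_distrib]
      refine sum_congr rfl fun i _ => ?_
      obtain ⟨u, hu⟩ := wq_mem hinv (a i)
      rw [Pi.smul_apply, Pi.smul_apply, ← hu, Top_odd hinv hS.2.2.1, smul_neg]
    rw [← hnq, ← hnq] at h1
    exact_mod_cast h1
  · have h1 := hz σ
    change ∑ i, (∑ x, wv G S (a i) x * v (σ • x)) * z i = 0 at h1
    rw [← h1]
    simp only [sum_mul]
    rw [sum_comm]
    refine sum_congr rfl fun i _ => sum_congr rfl fun x _ => ?_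
    ring
  · intro h
    apply hzM
    rw [Submodule.mem_comap]
    have h1 : φ (fun i => (z i : ℚ)) = fun x => ((∑ i, z i * wv G S (a i) x : ℤ) : ℚ) :=
      funext fun x => (hnq x).symm
    rw [h1]
    exact h
  · refine (abs_sum_le_sum_abs _ _).trans ?_
    have h1 : ∀ i ∈ (univ : Finset β), |z i * wv G S (a i) x| ≤
        (((Fintype.card β * B) ^ κ * (M₀ * finrank ℚ S) : ℕ) : ℤ) := by
      intro i _
      rw [abs_mul]
      push_cast
      refine mul_le_mul ?_ ?_ (abs_nonneg _) (by positivity)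
      · exact_mod_cast hzb i
      · exact_mod_cast hw _ _
    refine (sum_le_sum h1).trans ?_
    rw [sum_const, card_univ, nsmul_eq_mul]
    have h2 : Fintype.card β * ((Fintype.card β * B) ^ κ * (M₀ * finrank ℚ S)) ≤
        (D ^ 3 * M₀ * D₀) ^ (κ + 1) := by
      have h3 : Fintype.card β * B ≤ D ^ 3 * M₀ * D₀ := by
        rw [hB]
        calc Fintype.card β * (D * (M₀ * finrank ℚ S * D₀)) ≤ D * (D * (M₀ * D * D₀)) := by gcongr
          _ = D ^ 3 * M₀ * D₀ := by ring
      have h4 : Fintype.card β * (M₀ * finrank ℚ S) ≤ D ^ 3 * M₀ * D₀ := by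
        calc Fintype.card β * (M₀ * finrank ℚ S) ≤ D * (M₀ * D) := by gcongr
          _ = D ^ 2 * M₀ * 1 := by ring
          _ ≤ D ^ 3 * M₀ * D₀ := by
            refine Nat.mul_le_mul (Nat.mul_le_mul_right _ ?_) hD₀
            exact Nat.pow_le_pow_right hX0 (by norm_num)
      calc Fintype.card β * ((Fintype.card β * B) ^ κ * (M₀ * finrank ℚ S))
          = (Fintype.card β * B) ^ κ * (Fintype.card β * (M₀ * finrank ℚ S)) := by ring
        _ ≤ (D ^ 3 * M₀ * D₀) ^ κ * (D ^ 3 * M₀ * D₀) := by gcongr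
        _ = _ := (pow_succ _ _).symm
    exact_mod_cast h2

/-- **Small relations outside a subspace.** -/
theorem outside_group {c : G} (hfree : ∀ x : X, c • x ≠ x)
    (hcen : ∀ (γ : G) (x : X), c • γ • x = γ • c • x)
    {v : X → ℤ} {D₀ : ℕ} (hD₀ : 1 ≤ D₀) (hv1 : ∀ x, |v x| ≤ D₀) (O : Finset X)
    (hO : ∀ x : X, ∃ x₀ ∈ O, ∃ δ : G, δ • x₀ = x) {g : ℕ} (hg : Fintype.card X = 2 * g)
    {M : Submodule ℚ (X → ℚ)} (hM : Invariant G M) (hML : M ≤ relSpace G c v)
    (hne : ¬ relSpace G c v ≤ M) :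
    ∃ n' : X → ℤ, IsRelZ G c v n' ∧ (fun x => (n' x : ℚ)) ∉ M ∧
      ∀ x, (|n' x| : ℝ) ≤ exp (14 * √(O.card * g) * log (2 * g) * log (2 * g * D₀)) := by
  classical
  have hLinv : Invariant G (relSpace G c v) := relSpace_inv hcen v
  -- the orthogonal complement
  let Q : Submodule ℚ (X → ℚ) :=
    { carrier := {u | u ∈ relSpace G c v ∧ ∀ m ∈ M, dot X u m = 0}
      add_mem' := by
        rintro a b ⟨ha, ha'⟩ ⟨hb, hb'⟩
        refine ⟨Submodule.add_mem _ ha hb, fun m hm => ?_⟩
        rw [map_add, LinearMap.add_apply, ha' m hm, hb' m hm, add_zero]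
      zero_mem' := ⟨Submodule.zero_mem _, fun m hm => by rw [map_zero, LinearMap.zero_apply]⟩
      smul_mem' := by
        rintro r a ⟨ha, ha'⟩
        refine ⟨Submodule.smul_mem _ _ ha, fun m hm => ?_⟩
        rw [map_smul, LinearMap.smul_apply, ha' m hm, smul_zero] }
  have hQinv : Invariant G Q := by
    rintro γ s ⟨h1, h2⟩
    refine ⟨hLinv γ s h1, fun m hm => ?_⟩
    have h3 := dot_tr γ s m
    change dot X (tr γ s) m = 0
    rw [h3]
    exact h2 _ (tr_mem hM γ⁻¹ hm)
  have hQodd : AllOdd (fun x : X => c • x) Q := fun s hs x => hs.1.1 x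
  have hQ0 : Q ≠ ⊥ := by
    intro h0
    apply hne
    intro u hu
    have h1 : u - proj M u ∈ Q := by
      refine ⟨Submodule.sub_mem _ hu (hML (proj_mem M u)), fun m hm => ?_⟩
      rw [dot_comm]
      exact dot_sub_proj M hm u
    rw [h0, Submodule.mem_bot, sub_eq_zero] at h1
    rw [h1]
    exact proj_mem M u
  obtain ⟨S, hS, hSQ⟩ := exists_minInv Q hQinv hQodd hQ0
  have hSL : S ≤ relSpace G c v := fun s hs => (hSQ hs).1
  have hMS : Disjoint M S := by
    rw [Submodule.disjoint_def]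
    intro u hu1 hu2
    exact dot_self ((hSQ hu2).2 u hu1)
  have hinv : Invariant G S := hS.2.1
  set d := finrank ℚ S with hd
  have hd1 : 1 ≤ d := by
    have h1 : finrank ℚ S ≠ 0 := by
      intro h
      exact hS.1 (Submodule.finrank_eq_zero.1 h)
    omega
  have hdg2 : d ≤ 2 * g := by
    have h1 := Submodule.finrank_le S
    rwa [Module.finrank_fintype_fun_eq_card, hg] at h1
  obtain ⟨x₁, hx₁, hfix₁⟩ := exists_fixed hinv hS.1 O hO
  have hk1 : 1 ≤ O.card := card_pos.2 ⟨x₁, hx₁⟩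
  have hg1 : 1 ≤ g := by
    by_contra h
    omega
  set k := O.card with hk
  have hgR : (1 : ℝ) ≤ g := by exact_mod_cast hg1
  have hΛ2 := two_thirds hg1
  have hDpos : (0 : ℝ) < 2 * g := by linarith
  have hD₀R : (1 : ℝ) ≤ D₀ := by exact_mod_cast hD₀
  have hD₀pos : (0 : ℝ) < 2 * g * D₀ := by positivity
  have hΛle : log (2 * (g : ℝ)) ≤ log (2 * (g : ℝ) * D₀) :=
    log_le_log hDpos (le_mul_of_one_le_right hDpos.le hD₀R)
  by_cases hcase : (g : ℝ) ≤ d ^ 2 * k
  · -- direct use
    set κ := Fintype.card X / d + 1 with hκ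
    have hκ1 : Fintype.card X ≤ κ * d := by
      rw [hκ, add_mul, one_mul]
      have h1 := Nat.div_add_mod (Fintype.card X) d
      have h2 := Nat.mod_lt (Fintype.card X) hd1
      have h3 : d * (Fintype.card X / d) = Fintype.card X / d * d := mul_comm _ _
      omega
    obtain ⟨n', hn', hn'M, hb⟩ := outside_direct hfree hS hD₀ hv1 hML hSL hMS κ hκ1
    refine ⟨n', hn', hn'M, fun x => ?_⟩
    have h1 : (|n' x| : ℝ) ≤ (2 * (g : ℝ) * D₀) ^ κ := by
      have h2 := hb x
      rw [hg] at h2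
      exact_mod_cast h2
    refine h1.trans ?_
    have h2 : (2 * (g : ℝ) * D₀) ^ κ = exp (κ * log (2 * (g : ℝ) * D₀)) := by
      rw [exp_nat_mul, exp_log hD₀pos]
    rw [h2]
    apply exp_le_exp.2
    exact numeric_one hk1 hg1 hd1 hΛle hcase (by rw [hκ, hg])
  · push Not at hcase
    obtain ⟨x₂, hx₂, hmax⟩ := exists_max_image O (fun x => finrank ℚ (fixedPart G x S)) ⟨x₁, hx₁⟩
    set h := finrank ℚ (fixedPart G x₂ S) with hh
    have hh1 : 1 ≤ h := hfix₁.trans (hmax x₁ hx₁)
    have hhd : h ≤ d := Submodule.finrank_mono (fixedPart_le x₂ S)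
    obtain ⟨b, hb1, hb2⟩ := exists_b hd1 hh1 hhd
    have hM' := card_quot_le hS x₂ b hb1
    set κ := ∑ x₀ ∈ O, finrank ℚ (fixedPart G x₀ S) with hκ
    have hκk : κ ≤ k * h := by
      rw [hκ]
      refine (sum_le_sum fun x hx => hmax x hx).trans ?_
      rw [sum_const, smul_eq_mul]
    obtain ⟨n', hn', hn'M, hb⟩ := outside_isotypic hfree hS hD₀ hv1 hML hSL hMS κ
      (Fintype.card X ^ b)
      (by
        refine (finrank_range_le hinv O hO).trans (le_of_eq ?_)
        rw [hκ, sum_mul]) hM'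
    refine ⟨n', hn', hn'M, fun x => ?_⟩
    have h1 : (|n' x| : ℝ) ≤ (2 * (g : ℝ) * D₀) ^ ((3 + b) * (κ + 1)) := by
      have h2 := hb x
      have h3 : (Fintype.card X ^ 3 * Fintype.card X ^ b * D₀) ^ (κ + 1) ≤
          (2 * g * D₀) ^ ((3 + b) * (κ + 1)) := by
        rw [pow_mul]
        refine Nat.pow_le_pow_left ?_ _
        rw [hg, ← pow_add, mul_pow (2 * g) D₀]
        refine Nat.mul_le_mul_left _ ?_
        exact Nat.le_self_pow (by omega) _
      have h4 : |n' x| ≤ ((2 * g * D₀) ^ ((3 + b) * (κ + 1)) : ℕ) := h2.trans (by exact_mod_cast h3)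
      exact_mod_cast h4
    refine h1.trans ?_
    have h2 : (2 * (g : ℝ) * D₀) ^ ((3 + b) * (κ + 1)) =
        exp (((3 + b) * (κ + 1) : ℕ) * log (2 * (g : ℝ) * D₀)) := by
      rw [exp_nat_mul, exp_log hD₀pos]
    rw [h2]
    apply exp_le_exp.2
    exact numeric_two hk1 hg1 hh1 hhd hdg2 hΛle hcase hb2 hκk

/-- The set of the small relations. -/
def smallRel (G : Type) {X : Type} [Group G] [MulAction G X] [Fintype X] (c : G) (v : X → ℤ)
    (R : ℝ) : Set (X → ℤ) := {n | IsRelZ G c v n ∧ ∀ x, (|n x| : ℝ) ≤ R}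

/-- **The space of relations is spanned by the small ones.** -/
theorem span_small {c : G} (hfree : ∀ x : X, c • x ≠ x)
    (hcen : ∀ (γ : G) (x : X), c • γ • x = γ • c • x)
    {v : X → ℤ} {D₀ : ℕ} (hD₀ : 1 ≤ D₀) (hv1 : ∀ x, |v x| ≤ D₀) (O : Finset X)
    (hO : ∀ x : X, ∃ x₀ ∈ O, ∃ δ : G, δ • x₀ = x) {g : ℕ} (hg : Fintype.card X = 2 * g) :
    relSpace G c v ≤ Submodule.span ℚ ((fun (n : X → ℤ) (x : X) => (n x : ℚ)) ''
      smallRel G c v (exp (14 * √(O.card * g) * log (2 * g) * log (2 * g * D₀)))) := by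
  classical
  set R := exp (14 * √(O.card * g) * log (2 * g) * log (2 * g * D₀)) with hR
  set M := Submodule.span ℚ ((fun (n : X → ℤ) (x : X) => (n x : ℚ)) '' smallRel G c v R) with hM
  have hML : M ≤ relSpace G c v := by
    rw [hM, Submodule.span_le]
    rintro _ ⟨n, hn, rfl⟩
    exact hn.1.mem
  have hMinv : Invariant G M := by
    intro γ s hs
    change tr γ s ∈ M
    induction hs using Submodule.span_induction with
    | mem x hx =>
      obtain ⟨n, hn, rfl⟩ := hx
      refine Submodule.subset_span ⟨fun x => n (γ • x), ⟨⟨fun x => ?_, fun σ => ?_⟩, fun x => ?_⟩,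
        rfl⟩
      · rw [← hcen, hn.1.odd]
      · rw [← hn.1.rel (σ * γ⁻¹)]
        refine Fintype.sum_equiv (MulAction.toPerm γ) _ _ fun x => ?_
        rw [MulAction.toPerm_apply, mul_smul, inv_smul_smul]
      · exact hn.2 _
    | zero => rw [map_zero]; exact Submodule.zero_mem _
    | add x y _ _ hx hy => rw [map_add]; exact Submodule.add_mem _ hx hy
    | smul a x _ hx => rw [map_smul]; exact Submodule.smul_mem _ _ hx
  by_contra hne
  obtain ⟨n', h1, h2, h3⟩ := outside_group hfree hcen hD₀ hv1 O hO hg hMinv hML hne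
  exact h2 (Submodule.subset_span ⟨n', ⟨h1, h3⟩, rfl⟩)

end Pool.Agent.L7h94.GP
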