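import Mathlib
import Pool.Agent.L7h94.GP.Outside

/-!
# The lattice of the even relations is generated by short vectors
-/

set_option linter.unusedSectionVars false
set_option linter.unusedVariables false
set_option autoImplicit false

namespace Pool.Agent.L7h94.GP

open Finset Module Real Pool.Agent.TH170.MF Pool.Agent.Y1.KN Pool.Agent.L7h94.FE

variable {G X : Type} [Group G] [Fintype G] [MulAction G X] [Fintype X]
  {ι : Type*} [Fintype ι]

/-- The row of the letter `l`: zero for the trivial letters. -/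
def rowOf {G X : Type} [Group G] [MulAction G X] {ι : Type*} (v : X → ℤ) (cls : ι → Option X)
    (σ : G) (l : ι) : ℤ := (cls l).elim 0 fun x => v (σ • x)

/-- The vector is a relation of even degree. -/
structure EvenRel (G : Type) {X : Type} [Group G] [MulAction G X] {ι : Type*} [Fintype ι]
    (v : X → ℤ) (cls : ι → Option X) (deg : ι → ℕ) (z : ι → ℤ) : Prop where
  rel : ∀ σ : G, ∑ l, z l * rowOf v cls σ l = 0
  even : Even (∑ l, z l * deg l)

/-- The integral relations which are short. -/
def shortRel (G : Type) {X : Type} [Group G] [MulAction G X] {ι : Type*} [Fintype ι]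
    (v : X → ℤ) (cls : ι → Option X) (N : ℝ) : Set (ι → ℤ) :=
  {z | (∀ σ : G, ∑ l, z l * rowOf v cls σ l = 0) ∧ ((∑ l, |z l| : ℤ) : ℝ) ≤ N}

theorem sum_perm (c : G) {A : Type*} [AddCommMonoid A] (F : X → A) :
    ∑ x, F (c • x) = ∑ x, F x :=
  Fintype.sum_equiv (MulAction.toPerm c) _ _ fun x => rfl

open Classical in
/-- The rational relations are spanned by the short integral ones. -/
theorem span_short {c : G} (hcc : ∀ x : X, c • c • x = x)
    (hcen : ∀ (γ : G) (x : X), c • γ • x = γ • c • x) {v : X → ℤ} (hvc : ∀ x, v (c • x) = - v x)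
    {R : ℝ} (hspan : relSpace G c v ≤ Submodule.span ℚ
      ((fun (n : X → ℤ) (x : X) => (n x : ℚ)) '' smallRel G c v R))
    (cls : ι → Option X) (s : X → ι) (hs : ∀ x, cls (s x) = some x) {N₁ : ℝ} (hN1 : 2 ≤ N₁)
    (hN2 : Fintype.card X * R ≤ N₁) {z : ι → ℚ}
    (hz : ∀ σ : G, ∑ l, z l * (rowOf v cls σ l : ℚ) = 0) :
    z ∈ Submodule.span ℚ ((fun (n : ι → ℤ) (l : ι) => (n l : ℚ)) '' shortRel G v cls N₁) := by
  set V := Submodule.span ℚ ((fun (n : ι → ℤ) (l : ι) => (n l : ℚ)) '' shortRel G v cls N₁) with hV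
  have hsinj : Function.Injective s := by
    intro x y h
    have h1 := hs x
    rw [h, hs y] at h1
    exact (Option.some.inj h1).symm
  have hrs : ∀ (σ : G) x, rowOf v cls σ (s x) = v (σ • x) := by
    intro σ x
    rw [rowOf, hs x]
    rfl
  -- the trivial letters
  have h1 : ∀ l, cls l = none → (Pi.single l (1 : ℚ) : ι → ℚ) ∈ V := by
    intro l hl
    refine Submodule.subset_span ⟨Pi.single l 1, ⟨fun σ => ?_, ?_⟩, ?_⟩
    · rw [Finset.sum_eq_single l]
      · rw [rowOf, hl]
        exact mul_zero _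
      · intro l' _ h
        rw [Pi.single_eq_of_ne h, zero_mul]
      · intro h; exact absurd (mem_univ l) h
    · have h2 : ∑ l', |(Pi.single l (1 : ℤ) : ι → ℤ) l'| = 1 := by
        rw [Finset.sum_eq_single l]
        · rw [Pi.single_eq_same, abs_one]
        · intro l' _ h
          rw [Pi.single_eq_of_ne h, abs_zero]
        · intro h; exact absurd (mem_univ l) h
      rw [h2, Int.cast_one]
      linarith
    · funext l'
      change (((Pi.single l (1 : ℤ) : ι → ℤ) l' : ℤ) : ℚ) = (Pi.single l (1 : ℚ) : ι → ℚ) l'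
      by_cases h : l' = l
      · subst h; rw [Pi.single_eq_same, Pi.single_eq_same, Int.cast_one]
      · rw [Pi.single_eq_of_ne h, Pi.single_eq_of_ne h, Int.cast_zero]
  -- two letters
  have h2 : ∀ (l l' : ι) (ε : ℤ), |ε| = 1 →
      (∀ σ : G, rowOf v cls σ l + ε * rowOf v cls σ l' = 0) →
      (Pi.single l (1 : ℚ) + (ε : ℚ) • Pi.single l' (1 : ℚ) : ι → ℚ) ∈ V := by
    intro l l' ε hε h
    refine Submodule.subset_span ⟨Pi.single l 1 + ε • Pi.single l' 1, ⟨fun σ => ?_, ?_⟩, ?_⟩
    · simp only [Pi.add_apply, Pi.smul_apply, add_mul, sum_add_distrib, smul_eq_mul]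
      rw [Finset.sum_eq_single l, Finset.sum_eq_single l', Pi.single_eq_same, Pi.single_eq_same,
        one_mul, mul_one]
      · exact h σ
      · intro j _ hj
        rw [Pi.single_eq_of_ne hj, mul_zero, zero_mul]
      · intro h; exact absurd (mem_univ l') h
      · intro j _ hj
        rw [Pi.single_eq_of_ne hj, zero_mul]
      · intro h; exact absurd (mem_univ l) h
    · have h3 : ∑ j, |(Pi.single l 1 + ε • Pi.single l' 1 : ι → ℤ) j| ≤ 2 := by
        calc ∑ j, |(Pi.single l 1 + ε • Pi.single l' 1 : ι → ℤ) j|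
            ≤ ∑ j, (|(Pi.single l (1 : ℤ) : ι → ℤ) j| + |(Pi.single l' (1 : ℤ) : ι → ℤ) j|) := by
              refine sum_le_sum fun j _ => ?_
              refine (abs_add_le _ _).trans (le_of_eq ?_)
              rw [Pi.smul_apply, smul_eq_mul, abs_mul, hε, one_mul]
          _ = 2 := by
              rw [sum_add_distrib, Finset.sum_eq_single l, Finset.sum_eq_single l',
                Pi.single_eq_same, Pi.single_eq_same, abs_one]
              · norm_num
              · intro j _ hj
                rw [Pi.single_eq_of_ne hj, abs_zero]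
              · intro h; exact absurd (mem_univ l') h
              · intro j _ hj
                rw [Pi.single_eq_of_ne hj, abs_zero]
              · intro h; exact absurd (mem_univ l) h
      have h4 : ((∑ j, |(Pi.single l 1 + ε • Pi.single l' 1 : ι → ℤ) j| : ℤ) : ℝ) ≤ ((2 : ℤ) : ℝ) := by
        exact_mod_cast h3
      refine h4.trans ?_
      push_cast
      exact hN1
    · funext j
      simp only [Pi.add_apply, Pi.smul_apply, smul_eq_mul, Pi.single_apply]
      push_cast
      rfl
  -- the small relations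
  let θ : (X → ℚ) →ₗ[ℚ] (ι → ℚ) := Fintype.linearCombination ℚ fun x => Pi.single (s x) (1 : ℚ)
  have hθ : ∀ n : X → ℚ, θ n = ∑ x, n x • (Pi.single (s x) (1 : ℚ) : ι → ℚ) := fun n => rfl
  have h3 : ∀ n ∈ relSpace G c v, θ n ∈ V := by
    intro n hn
    have h4 := hspan hn
    clear hn
    induction h4 using Submodule.span_induction with
    | mem n hn =>
      obtain ⟨m, hm, rfl⟩ := hn
      refine Submodule.subset_span ⟨∑ x, m x • (Pi.single (s x) (1 : ℤ) : ι → ℤ), ⟨fun σ => ?_, ?_⟩,
        ?_⟩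
      · simp only [Finset.sum_apply, Pi.smul_apply, smul_eq_mul, sum_mul]
        rw [sum_comm, ← hm.1.rel σ]
        refine sum_congr rfl fun x _ => ?_
        rw [Finset.sum_eq_single (s x)]
        · rw [Pi.single_eq_same, mul_one, hrs]
        · intro j _ hj
          rw [Pi.single_eq_of_ne hj, mul_zero, zero_mul]
        · intro h; exact absurd (mem_univ _) h
      · have h5 : ∑ l, |(∑ x, m x • (Pi.single (s x) (1 : ℤ) : ι → ℤ)) l| ≤ ∑ x, |m x| := by
          calc ∑ l, |(∑ x, m x • (Pi.single (s x) (1 : ℤ) : ι → ℤ)) l|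
              ≤ ∑ l, ∑ x, |m x| * (Pi.single (s x) (1 : ℤ) : ι → ℤ) l := by
                refine sum_le_sum fun l _ => ?_
                rw [Finset.sum_apply]
                refine (abs_sum_le_sum_abs _ _).trans (le_of_eq ?_)
                refine sum_congr rfl fun x _ => ?_
                rw [Pi.smul_apply, smul_eq_mul, abs_mul]
                congr 1
                rw [Pi.single_apply]
                split_ifs <;> norm_num
            _ = ∑ x, |m x| := by
                rw [sum_comm]
                refine sum_congr rfl fun x _ => ?_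
                rw [Finset.sum_eq_single (s x)]
                · rw [Pi.single_eq_same, mul_one]
                · intro j _ hj
                  rw [Pi.single_eq_of_ne hj, mul_zero]
                · intro h; exact absurd (mem_univ _) h
        have h6 : ((∑ l, |(∑ x, m x • (Pi.single (s x) (1 : ℤ) : ι → ℤ)) l| : ℤ) : ℝ) ≤
            ((∑ x, |m x| : ℤ) : ℝ) := by exact_mod_cast h5
        refine h6.trans (le_trans ?_ hN2)
        push_cast
        calc ∑ x, |(m x : ℝ)| ≤ ∑ _x : X, R := sum_le_sum fun x _ => by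
              have := hm.2 x
              exact_mod_cast this
          _ = Fintype.card X * R := by rw [sum_const, card_univ, nsmul_eq_mul]
      · rw [hθ]
        funext l
        simp only [Finset.sum_apply, Pi.smul_apply, smul_eq_mul]
        push_cast
        refine sum_congr rfl fun x _ => ?_
        congr 1
        rw [Pi.single_apply, Pi.single_apply]
        split_ifs <;> simp
    | zero => rw [map_zero]; exact Submodule.zero_mem _
    | add x y _ _ hx hy => rw [map_add]; exact Submodule.add_mem _ hx hy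
    | smul a x _ hx => rw [map_smul]; exact Submodule.smul_mem _ _ hx
  -- the decomposition
  let y : X → ℚ := fun x => ∑ l, if cls l = some x then z l else 0
  have hz1 : z = ∑ l, z l • (Pi.single l (1 : ℚ) : ι → ℚ) := by
    funext j
    rw [Finset.sum_apply, Finset.sum_eq_single j]
    · rw [Pi.smul_apply, Pi.single_eq_same, smul_eq_mul, mul_one]
    · intro l _ hl
      rw [Pi.smul_apply, Pi.single_eq_of_ne hl.symm, smul_zero]
    · intro h; exact absurd (mem_univ j) h
  have h4 : z - θ y ∈ V := by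
    have h5 : z - θ y = ∑ l, z l • ((Pi.single l (1 : ℚ) : ι → ℚ) -
        (cls l).elim 0 fun x => Pi.single (s x) (1 : ℚ)) := by
      simp only [smul_sub, sum_sub_distrib]
      rw [← hz1]
      congr 1
      rw [hθ]
      simp only [y, sum_smul]
      rw [sum_comm]
      refine sum_congr rfl fun l _ => ?_
      rcases hc : cls l with _ | x₀
      · simp
      · rw [Finset.sum_eq_single x₀]
        · simp
        · intro x _ hx
          rw [if_neg (fun h => hx (Option.some.inj h).symm), zero_smul]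
        · intro h; exact absurd (mem_univ _) h
    rw [h5]
    refine Submodule.sum_mem _ fun l _ => Submodule.smul_mem _ _ ?_
    rcases hc : cls l with _ | x₀
    · rw [Option.elim_none, sub_zero]
      exact h1 l hc
    · rw [Option.elim_some]
      have h6 := h2 l (s x₀) (-1) (by norm_num) (fun σ => by
        rw [hrs, rowOf, hc, Option.elim_some]
        ring)
      have h7 : (Pi.single l (1 : ℚ) + ((-1 : ℤ) : ℚ) • Pi.single (s x₀) (1 : ℚ) : ι → ℚ) =
          Pi.single l 1 - Pi.single (s x₀) 1 := by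
        push_cast
        rw [neg_one_smul, sub_eq_add_neg]
      rwa [h7] at h6
  have hyrel : ∀ σ : G, ∑ x, y x * (v (σ • x) : ℚ) = 0 := by
    intro σ
    rw [← hz σ]
    simp only [y, sum_mul]
    rw [sum_comm]
    refine sum_congr rfl fun l _ => ?_
    rcases hc : cls l with _ | x₀
    · rw [rowOf, hc]
      simp
    · rw [Finset.sum_eq_single x₀]
      · rw [rowOf, hc]
        simp
      · intro x _ hx
        rw [if_neg (fun h => hx (Option.some.inj h).symm), zero_mul]
      · intro h; exact absurd (mem_univ _) h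
  let n : X → ℚ := fun x => y x - y (c • x)
  have hn : n ∈ relSpace G c v := by
    refine ⟨fun x => ?_, fun σ => ?_⟩
    · change y (c • x) - y (c • c • x) = -(y x - y (c • x))
      rw [hcc]
      ring
    · change ∑ x, (y x - y (c • x)) * (v (σ • x) : ℚ) = 0
      simp only [sub_mul, sum_sub_distrib]
      rw [hyrel σ]
      have h5 : ∑ x, y (c • x) * (v (σ • x) : ℚ) = - ∑ x, y x * (v (σ • x) : ℚ) := by
        rw [← sum_perm c (fun x => y x * (v (σ • x) : ℚ)), ← sum_neg_distrib]
        refine sum_congr rfl fun x _ => ?_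
        rw [← hcen, hvc]
        push_cast
        ring
      rw [h5, hyrel σ]
      ring
  have h5 : (2 : ℚ) • θ y = θ n + ∑ x, y (c • x) • ((Pi.single (s x) (1 : ℚ) : ι → ℚ) +
      Pi.single (s (c • x)) 1) := by
    rw [hθ, hθ]
    have h6 : ∑ x, y (c • x) • (Pi.single (s (c • x)) (1 : ℚ) : ι → ℚ) =
        ∑ x, y x • (Pi.single (s x) (1 : ℚ) : ι → ℚ) :=
      sum_perm c fun x => y x • (Pi.single (s x) (1 : ℚ) : ι → ℚ)
    simp only [smul_add, sum_add_distrib]
    rw [h6]
    simp only [n, sub_smul, sum_sub_distrib]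
    rw [two_smul]
    abel
  have h6 : (2 : ℚ) • θ y ∈ V := by
    rw [h5]
    refine Submodule.add_mem _ (h3 n hn) (Submodule.sum_mem _ fun x _ =>
      Submodule.smul_mem _ _ ?_)
    have h7 := h2 (s x) (s (c • x)) 1 abs_one (fun σ => by
      rw [hrs, hrs, one_mul, ← hcen, hvc]
      ring)
    rwa [Int.cast_one, one_smul] at h7
  have h7 : θ y ∈ V := by
    have h8 := Submodule.smul_mem V (1 / 2 : ℚ) h6
    rwa [smul_smul, show (1 / 2 : ℚ) * 2 = 1 by norm_num, one_smul] at h8
  have h8 := Submodule.add_mem _ h4 h7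
  rwa [sub_add_cancel] at h8

/-- **The lattice of the even relations is generated by short vectors.** -/
theorem lattice_gen {v : X → ℤ} {cls : ι → Option X} {deg : ι → ℕ} {N₁ : ℝ}
    (hspan : ∀ z : ι → ℚ, (∀ σ : G, ∑ l, z l * (rowOf v cls σ l : ℚ) = 0) →
      z ∈ Submodule.span ℚ ((fun (n : ι → ℤ) (l : ι) => (n l : ℚ)) '' shortRel G v cls N₁))
    (hN0 : 0 ≤ N₁) {z : ι → ℤ} (hz : EvenRel G v cls deg z) :
    z ∈ AddSubgroup.closure {z' : ι → ℤ | EvenRel G v cls deg z' ∧
      ((∑ l, |z' l| : ℤ) : ℝ) ≤ 2 * Fintype.card ι * N₁} := by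
  classical
  have h1 := hspan (fun l => (z l : ℚ)) (fun σ => by exact_mod_cast hz.rel σ)
  obtain ⟨f, hf1, hf2, -⟩ := Submodule.exists_fun_fin_finrank_span_eq ℚ
    ((fun (n : ι → ℤ) (l : ι) => (n l : ℚ)) '' shortRel G v cls N₁)
  have hr : finrank ℚ (Submodule.span ℚ
      ((fun (n : ι → ℤ) (l : ι) => (n l : ℚ)) '' shortRel G v cls N₁)) ≤ Fintype.card ι := by
    rw [← Module.finrank_fintype_fun_eq_card (R := ℚ) (η := ι)]
    exact Submodule.finrank_le _
  rw [← hf2] at h1
  generalize finrank ℚ (Submodule.span ℚ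
    ((fun (n : ι → ℤ) (l : ι) => (n l : ℚ)) '' shortRel G v cls N₁)) = r at f hf1 hf2 hr h1
  choose w hw using hf1
  obtain ⟨a, ha⟩ := (Submodule.mem_span_range_iff_exists_fun ℚ).1 h1
  set rest : ι → ℤ := z - ∑ i, (⌊a i / 2⌋ : ℤ) • ((2 : ℤ) • w i) with hrest
  have hz2 : z = rest + ∑ i, (⌊a i / 2⌋ : ℤ) • ((2 : ℤ) • w i) := by rw [hrest, sub_add_cancel]
  have hrestq : ∀ l, (rest l : ℚ) = ∑ i, (a i - 2 * ⌊a i / 2⌋) * w i l := by
    intro l
    have h2 := congrFun ha l
    rw [Finset.sum_apply] at h2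
    simp only [Pi.smul_apply, smul_eq_mul] at h2
    rw [hrest, Pi.sub_apply, Finset.sum_apply]
    simp only [Pi.smul_apply, smul_eq_mul]
    push_cast
    rw [← h2, ← sum_sub_distrib]
    refine sum_congr rfl fun i _ => ?_
    have h3 : f i l = (w i l : ℚ) := by rw [← (hw i).2]
    rw [h3]
    ring
  have hfl : ∀ i, 0 ≤ a i - 2 * (⌊a i / 2⌋ : ℚ) ∧ a i - 2 * (⌊a i / 2⌋ : ℚ) ≤ 2 := by
    intro i
    have h2 := Int.floor_le (a i / 2)
    have h3 := Int.lt_floor_add_one (a i / 2)
    constructor <;> linarith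
  have hlin : ∀ (φ : ι → ℤ), ∑ l, rest l * φ l = ∑ l, z l * φ l -
      ∑ i, ⌊a i / 2⌋ * (2 * ∑ l, w i l * φ l) := by
    intro φ
    rw [hrest]
    simp only [Pi.sub_apply, Finset.sum_apply, Pi.smul_apply, smul_eq_mul, sub_mul,
      sum_sub_distrib, sum_mul]
    congr 1
    rw [sum_comm]
    refine sum_congr rfl fun i _ => ?_
    rw [mul_sum, mul_sum]
    exact sum_congr rfl fun l _ => by ring
  rw [hz2]
  have hA : ∀ y : ι → ℤ, (EvenRel G v cls deg y ∧
      ((∑ l, |y l| : ℤ) : ℝ) ≤ 2 * Fintype.card ι * N₁) → y ∈ AddSubgroup.closure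
        {z' : ι → ℤ | EvenRel G v cls deg z' ∧
          ((∑ l, |z' l| : ℤ) : ℝ) ≤ 2 * Fintype.card ι * N₁} :=
    fun y hy => AddSubgroup.subset_closure hy
  refine AddSubgroup.add_mem _ (hA _ ⟨⟨fun σ => ?_, ?_⟩, ?_⟩)
    (AddSubgroup.sum_mem _ fun i _ => AddSubgroup.zsmul_mem _ (hA _
      ⟨⟨fun σ => ?_, ?_⟩, ?_⟩) _)
  · rw [hlin, hz.rel σ, zero_sub, neg_eq_zero]
    refine sum_eq_zero fun i _ => ?_
    rw [(hw i).1.1 σ, mul_zero, mul_zero]
  · rw [hlin]
    refine hz.even.sub ?_
    refine Finset.even_sum _ fun i _ => ?_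
    exact (even_two_mul _).mul_left _
  · have h2 : ((∑ l, |rest l| : ℤ) : ℚ) ≤ ∑ i, 2 * ((∑ l, |w i l| : ℤ) : ℚ) := by
      push_cast
      calc ∑ l, |(rest l : ℚ)| ≤ ∑ l, ∑ i, 2 * |(w i l : ℚ)| := by
            refine sum_le_sum fun l _ => ?_
            rw [hrestq]
            refine (abs_sum_le_sum_abs _ _).trans (sum_le_sum fun i _ => ?_)
            rw [abs_mul]
            refine mul_le_mul_of_nonneg_right ?_ (abs_nonneg _)
            rw [abs_of_nonneg (hfl i).1]
            exact (hfl i).2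
        _ = ∑ i, 2 * ∑ l, |(w i l : ℚ)| := by
            rw [sum_comm]
            exact sum_congr rfl fun i _ => by rw [mul_sum]
    have h3 : ((∑ l, |rest l| : ℤ) : ℝ) ≤ ∑ i, 2 * ((∑ l, |w i l| : ℤ) : ℝ) := by
      exact_mod_cast h2
    refine h3.trans ?_
    calc ∑ i, 2 * ((∑ l, |w i l| : ℤ) : ℝ) ≤ ∑ _i : Fin r, 2 * N₁ :=
          sum_le_sum fun i _ => by linarith [(hw i).1.2]
      _ = 2 * r * N₁ := by
          rw [sum_const, card_univ, Fintype.card_fin, nsmul_eq_mul]
          ring
      _ ≤ 2 * Fintype.card ι * N₁ := by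
          have : (r : ℝ) ≤ Fintype.card ι := by exact_mod_cast hr
          exact mul_le_mul_of_nonneg_right (by linarith) hN0
  · simp only [Pi.smul_apply, smul_eq_mul, mul_assoc]
    rw [← mul_sum, (hw i).1.1 σ, mul_zero]
  · simp only [Pi.smul_apply, smul_eq_mul, mul_assoc]
    rw [← mul_sum]
    exact even_two_mul _
  · have h2 : (∑ l, |((2 : ℤ) • w i) l| : ℤ) = 2 * ∑ l, |w i l| := by
      rw [mul_sum]
      refine sum_congr rfl fun l _ => ?_
      rw [Pi.smul_apply, smul_eq_mul, abs_mul, abs_two]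
    rw [h2]
    push_cast
    have h3 := (hw i).1.2
    push_cast at h3
    have h4 : (1 : ℝ) ≤ Fintype.card ι := by
      have h5 : 1 ≤ Fintype.card ι := le_trans (le_trans (Nat.succ_le_of_lt (Nat.pos_of_ne_zero
        fun h => by subst h; exact i.elim0)) le_rfl) hr
      exact_mod_cast h5
    nlinarith

end Pool.Agent.L7h94.GP
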