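import Mathlib

/-!
# From the generation of the lattice of relations to words
-/

set_option linter.unusedSectionVars false
set_option linter.unusedVariables false
set_option autoImplicit false

namespace Pool.Agent.L7h94.GP

open Finset

variable {ι : Type*} [Fintype ι] [DecidableEq ι]

/-- the integral vector of a word -/
def zv {ι : Type*} (a : ι → ℕ) : ι → ℤ := fun l => (a l : ℤ)

theorem zv_add (a b : ι → ℕ) : zv (a + b) = zv a + zv b := by
  funext l
  simp [zv]

theorem zv_inj {a b : ι → ℕ} (h : zv a = zv b) : a = b := by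
  funext l
  have := congrFun h l
  simp only [zv] at this
  exact_mod_cast this

/-- A pair of conjugate letters. -/
def pairOf (conj : ι → ι) (l : ι) : ι → ℕ := Pi.single l 1 + Pi.single (conj l) 1

/-- the push-forward of a vector of multiplicities -/
def pushC (conj : ι → ι) (a : ι → ℕ) : ι → ℕ := ∑ l, a l • Pi.single (conj l) 1

theorem add_pushC (conj : ι → ι) (a : ι → ℕ) : a + pushC conj a = ∑ l, a l • pairOf conj l := by
  have h1 : a = ∑ l, a l • (Pi.single l 1 : ι → ℕ) := by
    funext j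
    rw [Finset.sum_apply, Finset.sum_eq_single j]
    · rw [Pi.smul_apply, Pi.single_eq_same, smul_eq_mul, mul_one]
    · intro l _ hl
      rw [Pi.smul_apply, Pi.single_eq_of_ne hl.symm, smul_zero]
    · intro h; exact absurd (mem_univ j) h
  conv_lhs => rw [h1]
  rw [pushC]
  simp only [pairOf, smul_add, sum_add_distrib]
  rw [← h1]

theorem sum_pushC (conj : ι → ι) (a : ι → ℕ) : ∑ l, pushC conj a l = ∑ l, a l := by
  rw [pushC]
  simp only [Finset.sum_apply, Pi.smul_apply, smul_eq_mul]
  rw [sum_comm]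
  refine sum_congr rfl fun l _ => ?_
  rw [← mul_sum, Finset.sum_eq_single (conj l), Pi.single_eq_same, mul_one]
  · intro j _ hj
    rw [Pi.single_eq_of_ne hj]
  · intro h; exact absurd (mem_univ _) h

/-- **From the generation of the lattice to words.** -/
theorem words_of_lattice (conj : ι → ι) (T : AddSubgroup (ι → ℤ)) (Alg : (ι → ℕ) → Prop) (N : ℝ)
    (hN : 2 ≤ N) (hpair : ∀ l, zv (pairOf conj l) ∈ T)
    (h0 : Alg 0) (hadd : ∀ a b, Alg a → Alg b → Alg (a + b))
    (hrem : ∀ a l, Alg (a + pairOf conj l) → Alg a)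
    (hshort : ∀ a : ι → ℕ, zv a ∈ T → ((∑ l, a l : ℕ) : ℝ) ≤ N → Alg a)
    {a : ι → ℕ} (ha : zv a ∈ AddSubgroup.closure {z : ι → ℤ | z ∈ T ∧
      ((∑ l, |z l| : ℤ) : ℝ) ≤ N}) : Alg a := by
  let P : AddSubmonoid (ι → ℕ) := AddSubmonoid.closure (Set.range (pairOf conj))
  have hsum : ∀ l, ∑ j, pairOf conj l j = 2 := by
    intro l
    simp only [pairOf, Pi.add_apply, sum_add_distrib]
    rw [Finset.sum_eq_single l, Finset.sum_eq_single (conj l), Pi.single_eq_same,
      Pi.single_eq_same]
    · intro j _ hj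
      rw [Pi.single_eq_of_ne hj]
    · intro h; exact absurd (mem_univ _) h
    · intro j _ hj
      rw [Pi.single_eq_of_ne hj]
    · intro h; exact absurd (mem_univ _) h
  have hpairA : ∀ l, Alg (pairOf conj l) := by
    intro l
    refine hshort _ (hpair l) ?_
    rw [hsum]
    exact_mod_cast hN
  have hPadd : ∀ t ∈ P, ∀ b, Alg b → Alg (b + t) := by
    intro t ht
    induction ht using AddSubmonoid.closure_induction with
    | mem x hx =>
      obtain ⟨l, rfl⟩ := hx
      exact fun b hb => hadd _ _ hb (hpairA l)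
    | zero => intro b hb; rwa [add_zero]
    | add x y _ _ hx hy =>
      intro b hb
      rw [← add_assoc]
      exact hy _ (hx _ hb)
  have hPrem : ∀ t ∈ P, ∀ b, Alg (b + t) → Alg b := by
    intro t ht
    induction ht using AddSubmonoid.closure_induction with
    | mem x hx =>
      obtain ⟨l, rfl⟩ := hx
      exact fun b hb => hrem _ l hb
    | zero => intro b hb; rwa [add_zero] at hb
    | add x y _ _ hx hy =>
      intro b hb
      rw [← add_assoc] at hb
      exact hx _ (hy _ hb)
  have hPT : ∀ t ∈ P, zv t ∈ T := by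
    intro t ht
    induction ht using AddSubmonoid.closure_induction with
    | mem x hx =>
      obtain ⟨l, rfl⟩ := hx
      exact hpair l
    | zero =>
      have : zv (0 : ι → ℕ) = 0 := by funext l; simp [zv]
      rw [this]; exact T.zero_mem
    | add x y _ _ hx hy =>
      rw [zv_add]
      exact T.add_mem hx hy
  have hPp : ∀ b : ι → ℕ, b + pushC conj b ∈ P := by
    intro b
    rw [add_pushC]
    refine P.sum_mem fun l _ => P.nsmul_mem ?_ _
    exact AddSubmonoid.subset_closure ⟨l, rfl⟩
  let H : (ι → ℤ) → Prop := fun z => ∃ b t₁ t₂ : ι → ℕ, Alg b ∧ t₁ ∈ P ∧ t₂ ∈ P ∧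
    z + zv t₁ = zv b + zv t₂
  -- short relations
  have hH : ∀ z ∈ T, ((∑ l, |z l| : ℤ) : ℝ) ≤ N → H z := by
    intro z hz hzN
    let zp : ι → ℕ := fun l => (z l).toNat
    let zm : ι → ℕ := fun l => (- z l).toNat
    have hz1 : z + zv zm = zv zp := by
      funext l
      simp only [zv, Pi.add_apply, zp, zm]
      omega
    refine ⟨zp + pushC conj zm, zm + pushC conj zm, 0, hshort _ ?_ ?_, hPp zm, P.zero_mem, ?_⟩
    · have h1 : zv (zp + pushC conj zm) = z + zv (zm + pushC conj zm) := by
        rw [zv_add, zv_add, ← hz1]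
        abel
      rw [h1]
      exact T.add_mem hz (hPT _ (hPp zm))
    · refine le_trans (le_of_eq ?_) hzN
      have h1 : ((∑ l, (zp + pushC conj zm) l : ℕ) : ℤ) = ∑ l, |z l| := by
        simp only [Pi.add_apply, sum_add_distrib]
        rw [sum_pushC, ← sum_add_distrib]
        push_cast
        refine sum_congr rfl fun l _ => ?_
        simp only [zp, zm]
        rcases le_total 0 (z l) with h | h
        · rw [abs_of_nonneg h]; omega
        · rw [abs_of_nonpos h]; omega
      exact_mod_cast h1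
    · rw [zv_add, zv_add, ← hz1]
      have : zv (0 : ι → ℕ) = 0 := by funext l; simp [zv]
      rw [this]
      abel
  have hHadd : ∀ z w, H z → H w → H (z + w) := by
    rintro z w ⟨b, t₁, t₂, h1, h2, h3, h4⟩ ⟨b', t₁', t₂', h1', h2', h3', h4'⟩
    refine ⟨b + b', t₁ + t₁', t₂ + t₂', hadd _ _ h1 h1', P.add_mem h2 h2', P.add_mem h3 h3', ?_⟩
    rw [zv_add, zv_add, zv_add]
    calc z + w + (zv t₁ + zv t₁') = (z + zv t₁) + (w + zv t₁') := by abel
      _ = _ := by rw [h4, h4']; abel
  have key : ∀ z ∈ AddSubgroup.closure {z : ι → ℤ | z ∈ T ∧ ((∑ l, |z l| : ℤ) : ℝ) ≤ N},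
      H z ∧ H (-z) := by
    intro z hz
    induction hz using AddSubgroup.closure_induction with
    | mem x hx =>
      refine ⟨hH x hx.1 hx.2, hH (-x) (T.neg_mem hx.1) ?_⟩
      have h1 : ∑ l, |(-x) l| = ∑ l, |x l| := sum_congr rfl fun l _ => by
        rw [Pi.neg_apply, abs_neg]
      rw [h1]
      exact hx.2
    | zero =>
      have h1 : H 0 := ⟨0, 0, 0, h0, P.zero_mem, P.zero_mem, by
        have : zv (0 : ι → ℕ) = 0 := by funext l; simp [zv]
        rw [this, add_zero]⟩
      exact ⟨h1, by rwa [neg_zero]⟩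
    | add x y _ _ hx hy =>
      refine ⟨hHadd _ _ hx.1 hy.1, ?_⟩
      rw [neg_add]
      exact hHadd _ _ hx.2 hy.2
    | neg x _ hx => exact ⟨hx.2, by rw [neg_neg]; exact hx.1⟩
  obtain ⟨⟨b, t₁, t₂, h1, h2, h3, h4⟩, -⟩ := key _ ha
  rw [← zv_add, ← zv_add] at h4
  have h5 := zv_inj h4
  refine hPrem t₁ h2 a ?_
  rw [h5]
  exact hPadd t₂ h3 b h1

end Pool.Agent.L7h94.GP
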