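import Mathlib
import Pool.Agent.L7h94.FP.Small
import Pool.Agent.L7h94.GP.Lattice
import Pool.Agent.L7h94.GP.Words
import Pool.Agent.R940.Tor

/-!
# Families of Weil numbers and their classes
-/

set_option linter.unusedSectionVars false
set_option linter.unusedVariables false
set_option autoImplicit false

namespace Pool.Agent.L7h94.GP

open Finset Module Real Polynomial Pool.Agent.R940 Pool.Agent.L7h94.FP

noncomputable section

theorem exists_root_in {L K : Type*} [Field L] [Field K] [Algebra ℚ L] [Algebra ℚ K]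
    (j : L →ₐ[ℚ] K) {F : ℚ[X]} (hF0 : F ≠ 0) (hs : (F.map (algebraMap ℚ L)).Splits) {y : K}
    (hy : aeval y F = 0) : ∃ x, j x = y := by
  have hroot : y ∈ (F.map (algebraMap ℚ K)).roots := by
    rw [mem_roots ((Polynomial.map_ne_zero_iff (algebraMap ℚ K).injective).2 hF0), IsRoot.def,
      eval_map_algebraMap, hy]
  have h1 : F.map (algebraMap ℚ K) = (F.map (algebraMap ℚ L)).map (j : L →+* K) := by
    rw [Polynomial.map_map]
    congr 1
    exact (j.comp_algebraMap).symm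
  rw [h1, hs.roots_map_of_injective (j : L →+* K).injective, Multiset.mem_map] at hroot
  obtain ⟨x, _, hx⟩ := hroot
  exact ⟨x, hx⟩

/-- The family lives in a Galois extension of the rational numbers. -/
theorem exists_field {K ι : Type*} [Field K] [CharZero K] [IsAlgClosed K] [Fintype ι] {lam : ι → K}
    (h : ∀ l, IsIntegral ℤ (lam l)) : ∃ (L : Type) (_ : Field L) (_ : NumberField L)
      (_ : IsGalois ℚ L) (j : L →ₐ[ℚ] K), ∀ l, ∃ x : L, j x = lam l := by
  classical
  set F : ℚ[X] := ∏ l, minpoly ℚ (lam l) with hF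
  have hint : ∀ l, IsIntegral ℚ (lam l) := fun l => (h l).tower_top
  have hF0 : F ≠ 0 := Finset.prod_ne_zero_iff.2 fun l _ => minpoly.ne_zero (hint l)
  have hLN : NumberField F.SplittingField :=
    { to_charZero := charZero_of_injective_algebraMap (algebraMap ℚ F.SplittingField).injective
      to_finiteDimensional := inferInstance }
  have hsf : IsSplittingField ℚ F.SplittingField F := Polynomial.IsSplittingField.splittingField F
  have hnormal : Normal ℚ F.SplittingField := Normal.of_isSplittingField F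
  have hGal : IsGalois ℚ F.SplittingField := ⟨⟩
  refine ⟨F.SplittingField, inferInstance, hLN, hGal, IsAlgClosed.lift, fun l => ?_⟩
  refine exists_root_in _ hF0 (SplittingField.splits F) ?_
  rw [hF, map_prod]
  exact Finset.prod_eq_zero (mem_univ l) (minpoly.aeval ℚ (lam l))

section

variable {K ι : Type*} [Field K] [CharZero K] {p : ℕ} [hp : Fact p.Prime] {e D : ℕ}
  {lam : ι → K} {deg : ι → ℕ} {L : Type} [Field L] [NumberField L] [IsGalois ℚ L]

/-- The embedding of the field generated by the numbers. -/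
theorem exists_incl (j : L →ₐ[ℚ] K) {x : ι → L} (hx : ∀ l, j (x l) = lam l) :
    ∃ i : EF lam →ₐ[ℚ] L, ∀ l, i (el lam l) = x l := by
  have hle : EF lam ≤ j.fieldRange := by
    rw [EF, IntermediateField.adjoin_le_iff]
    rintro _ ⟨l, rfl⟩
    exact ⟨x l, hx l⟩
  let u : EF lam →ₐ[ℚ] j.fieldRange := IntermediateField.inclusion hle
  let t : L ≃ₐ[ℚ] j.fieldRange := AlgEquiv.ofInjectiveField j
  refine ⟨(t.symm : j.fieldRange →ₐ[ℚ] L).comp u, fun l => ?_⟩
  apply t.injective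
  apply Subtype.ext
  have h1 : t ((t.symm : j.fieldRange →ₐ[ℚ] L) (u (el lam l))) = u (el lam l) :=
    t.apply_symm_apply _
  change ((t ((t.symm : j.fieldRange →ₐ[ℚ] L) (u (el lam l))) : j.fieldRange) : K) = _
  rw [h1]
  exact (hx l).symm

/-- All embeddings come from the Galois group. -/
theorem exists_sigma (i : EF lam →ₐ[ℚ] L) (e₀ : L →ₐ[ℚ] PadicAlgCl p)
    (ψ : EF lam →ₐ[ℚ] PadicAlgCl p) : ∃ σ : L ≃ₐ[ℚ] L, ψ = (e₀.comp (σ : L →ₐ[ℚ] L)).comp i := by
  let _ : Algebra (EF lam) L := i.toRingHom.toAlgebra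
  have _ : IsScalarTower ℚ (EF lam) L := IsScalarTower.of_algebraMap_eq fun r => (i.commutes r).symm
  have _ : Algebra.IsAlgebraic (EF lam) L := Algebra.IsAlgebraic.tower_top (K := ℚ) (EF lam)
  obtain ⟨τ, hτ⟩ := IsAlgClosed.surjective_domRestrict_of_isAlgebraic (K := ℚ) (L := EF lam)
    (E := L) (M := PadicAlgCl p) ψ
  obtain ⟨σ, hσ⟩ := Pool.Agent.H485R3.exists_gal e₀ τ
  refine ⟨σ, ?_⟩
  rw [← hτ]
  refine AlgHom.ext fun y => ?_
  change τ (i y) = e₀ (σ (i y))
  exact hσ _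

variable (i : EF lam →ₐ[ℚ] L) (e₀ : L →ₐ[ℚ] PadicAlgCl p)

/-- the embedding given by an element of the Galois group -/
def emb (σ : L ≃ₐ[ℚ] L) : EF lam →ₐ[ℚ] PadicAlgCl p := (e₀.comp (σ : L →ₐ[ℚ] L)).comp i

theorem emb_el {x : ι → L} (hi : ∀ l, i (el lam l) = x l) (σ : L ≃ₐ[ℚ] L) (l : ι) :
    emb i e₀ σ (el lam l) = e₀ (σ (x l)) := by
  rw [← hi l]
  rfl

/-- the class of a letter -/
def rho (h : IsWeilFamily p e D lam deg) (l : ι) : (L ≃ₐ[ℚ] L) → ℤ := fun σ => row h (emb i e₀ σ) l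

theorem mm_unique (he : 0 < e) (h : IsWeilFamily p e D lam deg) (ψ : EF lam →ₐ[ℚ] PadicAlgCl p)
    (l : ι) {m : ℤ} (hm : ‖ψ (el lam l)‖ ^ D = ((p : ℝ) ^ e) ^ (-m)) : mm h ψ l = m := by
  have h1 := mm_spec h ψ l
  rw [hm] at h1
  have h2 := zpow_right_injective₀ (zero_lt_one.trans (pe_pos he)) (pe_pos he).ne' h1
  linarith [h2]

theorem rho_gal (he : 0 < e) (h : IsWeilFamily p e D lam deg) {x : ι → L}
    (hi : ∀ l, i (el lam l) = x l) {l l' : ι} (γ : L ≃ₐ[ℚ] L) (hx : x l' = γ (x l))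
    (hd : deg l' = deg l) (σ : L ≃ₐ[ℚ] L) : rho i e₀ h l' σ = rho i e₀ h l (σ * γ) := by
  unfold rho row
  rw [hd]
  congr 2
  apply mm_unique he h
  rw [emb_el i e₀ hi, hx]
  have h1 := mm_spec h (emb i e₀ (σ * γ)) l
  rw [emb_el i e₀ hi] at h1
  exact h1

theorem isWeil_x (he : 0 < e) (h : IsWeilFamily p e D lam deg) {x : ι → L}
    (j : L →ₐ[ℚ] K) (hx : ∀ l, j (x l) = lam l) (l : ι) : IsWeil p (e * deg l) (x l) := by
  refine ⟨?_, fun φ => ?_⟩
  · have h1 : IsIntegral ℤ (j (x l)) := by rw [hx]; exact h.int l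
    exact (isIntegral_algHom_iff (j.restrictScalars ℤ) j.injective).1 h1
  · have h1 : minpoly ℚ (lam l) = minpoly ℚ (x l) := by
      rw [← hx l]
      exact minpoly.algHom_eq j j.injective (x l)
    have h2 := h.arch l (φ (x l)) (by
      rw [h1]
      have h3 : φ (x l) = φ.toRatAlgHom (x l) := rfl
      rw [h3, aeval_algHom_apply, minpoly.aeval, map_zero])
    rw [h2, pow_mul]

theorem rho_conj (he : 0 < e) (hD : 0 < D) (h : IsWeilFamily p e D lam deg) {x : ι → L}
    (hi : ∀ l, i (el lam l) = x l) (l : ι) {c : L ≃ₐ[ℚ] L}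
    (hc : x l * c (x l) = (p : L) ^ (e * deg l)) (σ : L ≃ₐ[ℚ] L) :
    rho i e₀ h l (σ * c) = - rho i e₀ h l σ := by
  have h1 := mm_spec h (emb i e₀ (σ * c)) l
  have h2 := mm_spec h (emb i e₀ σ) l
  rw [emb_el i e₀ hi] at h1 h2
  have h3 : ‖e₀ (σ (x l))‖ * ‖e₀ ((σ * c) (x l))‖ = (((p : ℝ) ^ e) ^ deg l)⁻¹ := by
    rw [← norm_mul, ← norm_natCast_p]
    congr 1
    have h4 : (σ * c) (x l) = σ (c (x l)) := rfl
    rw [h4, ← map_mul, ← map_mul, hc]
    simp [pow_mul]
  have h4 : ((p : ℝ) ^ e) ^ (-(mm h (emb i e₀ σ) l)) * ((p : ℝ) ^ e) ^ (-(mm h (emb i e₀ (σ * c)) l)) =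
      ((p : ℝ) ^ e) ^ (-((D : ℤ) * deg l)) := by
    rw [← h1, ← h2, ← mul_pow, h3, zpow_neg, inv_pow, ← pow_mul, mul_comm (deg l)]
    norm_cast
  rw [← zpow_add₀ (zero_lt_one.trans (pe_pos he)).ne'] at h4
  have h5 := zpow_right_injective₀ (zero_lt_one.trans (pe_pos he)) (pe_pos he).ne' h4
  unfold rho row
  linarith [h5]

variable [Fintype ι] [DecidableEq ι]

/-- **The relations between Weil numbers are generated by short ones.** -/
theorem family_gen [IsAlgClosed K] (he : 0 < e) (hD : 0 < D) (h : IsWeilFamily p e D lam deg)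
    (hstab : ∀ (l : ι) (y : K), aeval y (minpoly ℚ (lam l)) = 0 → ∃ l', lam l' = y ∧
      deg l' = deg l) {w k : ℕ} (hw1 : 1 ≤ w) (hw : ∀ l, deg l ≤ w)
    (hk : (univ.image fun l => minpoly ℚ (lam l)).card ≤ k) {N : ℝ}
    (hN2 : 2 ≤ N) (hN : ∀ g' : ℕ, 2 * g' ≤ Fintype.card ι → 2 * (Fintype.card ι : ℝ) * max 2 (2 * g' *
      exp (14 * √(k * g') * log (2 * g') * log (2 * g' * (D * w : ℕ)))) ≤ N)
    (Alg : (ι → ℕ) → Prop) (h0 : Alg 0) (hadd : ∀ a b, Alg a → Alg b → Alg (a + b))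
    (hrem : ∀ (a : ι → ℕ) (l l' : ι), lam l * lam l' = (((p ^ e) ^ deg l : ℕ) : K) →
      deg l' = deg l → Alg (a + (Pi.single l 1 + Pi.single l' 1)) → Alg a)
    (hshort : ∀ a : ι → ℕ, IsT (p ^ e) lam deg a → ((∑ l, a l : ℕ) : ℝ) ≤ N → Alg a)
    {a : ι → ℕ} (ha : IsT (p ^ e) lam deg a) : Alg a := by
  classical
  obtain ⟨L, _, _, _, j, hL⟩ := exists_field h.int
  choose x hx using hL
  obtain ⟨i, hi⟩ := exists_incl (lam := lam) j hx
  let e₀ : L →ₐ[ℚ] PadicAlgCl p := IsAlgClosed.lift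
  obtain ⟨c, hc⟩ := exists_conj' (p := p) (L := L)
  have hweil : ∀ l, IsWeil p (e * deg l) (x l) := isWeil_x he h j hx
  have hcx : ∀ l, x l * c (x l) = (p : L) ^ (e * deg l) := fun l => hc _ _ (hweil l)
  set ρ : ι → (L ≃ₐ[ℚ] L) → ℤ := rho i e₀ h with hρ
  have hρc : ∀ l σ, ρ l (σ * c) = - ρ l σ := fun l σ => rho_conj i e₀ he hD h hi l (hcx l) σ
  -- conjugate letters
  have hgal : ∀ (l : ι) (γ : L ≃ₐ[ℚ] L), ∃ l', x l' = γ (x l) ∧ deg l' = deg l := by
    intro l γ
    obtain ⟨l', h1, h2⟩ := hstab l (j (γ (x l))) (by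
      have h3 : minpoly ℚ (lam l) = minpoly ℚ (x l) := by
        rw [← hx l]
        exact minpoly.algHom_eq j j.injective (x l)
      have h4 : j (γ (x l)) = (j.comp (γ : L →ₐ[ℚ] L)) (x l) := rfl
      rw [h3, h4, aeval_algHom_apply, minpoly.aeval, map_zero])
    refine ⟨l', j.injective ?_, h2⟩
    change j (x l') = j (γ (x l))
    rw [hx, h1]
  have hρgal : ∀ {l l' : ι} (γ : L ≃ₐ[ℚ] L), x l' = γ (x l) → deg l' = deg l →
      ∀ σ, ρ l' σ = ρ l (σ * γ) := fun γ h1 h2 σ => rho_gal i e₀ he h hi γ h1 h2 σ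
  -- the set of the classes
  let S : Finset ((L ≃ₐ[ℚ] L) → ℤ) := (univ.image ρ).filter fun f => f ≠ 0
  have hS : ∀ f, f ∈ S ↔ (∃ l, ρ l = f) ∧ f ≠ 0 := by
    intro f
    simp [S]
  let X : Type := S
  let act : MulAction (L ≃ₐ[ℚ] L) X :=
    { smul := fun γ f => ⟨fun σ => f.1 (σ * γ), by
        obtain ⟨⟨l, hl⟩, hf0⟩ := (hS _).1 f.2
        obtain ⟨l', h1, h2⟩ := hgal l γ
        refine (hS _).2 ⟨⟨l', ?_⟩, ?_⟩
        · funext σ
          rw [hρgal γ h1 h2, hl]
        · intro h3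
          apply hf0
          funext σ
          have h4 := congrFun h3 (σ * γ⁻¹)
          change f.1 (σ * γ⁻¹ * γ) = 0 at h4
          rwa [inv_mul_cancel_right] at h4⟩
      one_smul := fun f => Subtype.ext (funext fun σ => by
        change f.1 (σ * 1) = f.1 σ
        rw [mul_one])
      mul_smul := fun γ δ f => Subtype.ext (funext fun σ => by
        change f.1 (σ * (γ * δ)) = f.1 (σ * γ * δ)
        rw [mul_assoc]) }
  have hsm : ∀ (γ : L ≃ₐ[ℚ] L) (f : X) (σ : L ≃ₐ[ℚ] L), (γ • f).1 σ = f.1 (σ * γ) :=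
    fun _ _ _ => rfl
  have hcf : ∀ (f : X) σ, (c • f).1 σ = - f.1 σ := by
    intro f σ
    obtain ⟨⟨l, hl⟩, hf0⟩ := (hS _).1 f.2
    rw [hsm, ← hl, hρc]
  have hfree : ∀ f : X, c • f ≠ f := by
    intro f hf
    apply ((hS _).1 f.2).2
    funext σ
    have h1 := hcf f σ
    rw [hf] at h1
    change f.1 σ = 0
    omega
  have hcc : ∀ f : X, c • c • f = f := by
    intro f
    apply Subtype.ext
    funext σ
    rw [hcf, hcf, neg_neg]
  have hcen : ∀ (γ : L ≃ₐ[ℚ] L) (f : X), c • γ • f = γ • c • f := by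
    intro γ f
    apply Subtype.ext
    funext σ
    rw [hcf, hsm, hsm, hcf]
  let v : X → ℤ := fun f => f.1 1
  have hv : ∀ (σ : L ≃ₐ[ℚ] L) (f : X), v (σ • f) = f.1 σ := by
    intro σ f
    change (σ • f).1 1 = _
    rw [hsm, one_mul]
  have hvc : ∀ f, v (c • f) = - v f := fun f => hcf f 1
  have hD₀ : 1 ≤ D * w := Nat.mul_pos hD hw1
  have hv1 : ∀ f, |v f| ≤ ((D * w : ℕ) : ℤ) := by
    intro f
    obtain ⟨⟨l, hl⟩, hf0⟩ := (hS _).1 f.2
    change |f.1 1| ≤ _
    rw [← hl]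
    refine (row_le he h _ l).trans ?_
    exact_mod_cast Nat.mul_le_mul_left D (hw l)
  -- the classes of the letters
  let cls : ι → Option X := fun l => if h1 : ρ l = 0 then none else some ⟨ρ l, (hS _).2 ⟨⟨l, rfl⟩, h1⟩⟩
  have hrow : ∀ (σ : L ≃ₐ[ℚ] L) l, rowOf v cls σ l = ρ l σ := by
    intro σ l
    by_cases h1 : ρ l = 0
    · have h2 : cls l = none := dif_pos h1
      rw [rowOf, h2, h1]
      rfl
    · have h2 : cls l = some ⟨ρ l, (hS _).2 ⟨⟨l, rfl⟩, h1⟩⟩ := dif_neg h1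
      rw [rowOf, h2, Option.elim_some, hv]
  choose s hs using fun f : X => ((hS _).1 f.2).1
  have hcls : ∀ f, cls (s f) = some f := by
    intro f
    have h1 : ρ (s f) ≠ 0 := by
      rw [hs]
      exact ((hS _).1 f.2).2
    have h2 : cls (s f) = some ⟨ρ (s f), (hS _).2 ⟨⟨s f, rfl⟩, h1⟩⟩ := dif_neg h1
    rw [h2]
    congr 1
    exact Subtype.ext (hs f)
  have hsinj : Function.Injective s := by
    intro f f' h1
    apply Subtype.ext
    rw [← hs f, ← hs f', h1]
  -- the representatives of the orbits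
  let mp : X → ℚ[X] := fun f => minpoly ℚ (lam (s f))
  have horb : ∀ f f' : X, mp f = mp f' → ∃ γ : L ≃ₐ[ℚ] L, γ • f' = f := by
    intro f f' h1
    have h3 : ∀ l, minpoly ℚ (lam l) = minpoly ℚ (x l) := fun l => by
      rw [← hx l]
      exact minpoly.algHom_eq j j.injective (x l)
    have h4 : minpoly ℚ (x (s f')) = minpoly ℚ (x (s f)) := by
      rw [← h3, ← h3]
      exact h1.symm
    obtain ⟨γ, hγ⟩ : ∃ γ : L ≃ₐ[ℚ] L, γ (x (s f')) = x (s f) := by
      obtain ⟨γ, hγ⟩ := (Normal.minpoly_eq_iff_mem_orbit L).1 h4.symm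
      exact ⟨γ, hγ⟩
    have hdeg : deg (s f) = deg (s f') := by
      obtain ⟨φ⟩ : Nonempty (L →+* ℂ) := inferInstance
      have h5 := (hweil (s f)).weil φ
      have h6 := (hweil (s f')).weil (φ.comp (γ : L →+* L))
      have h7 : (φ.comp (γ : L →+* L)) (x (s f')) = φ (x (s f)) := by
        rw [← hγ]
        rfl
      rw [h7, h5] at h6
      have h8 : (1 : ℝ) < p := by exact_mod_cast hp.out.one_lt
      have h9 := pow_right_injective₀ (zero_lt_one.trans h8) h8.ne' h6
      exact Nat.eq_of_mul_eq_mul_left he h9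
    refine ⟨γ, Subtype.ext (funext fun σ => ?_)⟩
    rw [hsm, ← hs f, ← hs f']
    exact (hρgal γ hγ.symm hdeg σ).symm
  let pick : ℚ[X] → Option X := fun Q => if h1 : ∃ f, mp f = Q then some h1.choose else none
  let O : Finset X := (univ.image mp).biUnion fun Q => (pick Q).toFinset
  have hO : ∀ f : X, ∃ f₀ ∈ O, ∃ δ : L ≃ₐ[ℚ] L, δ • f₀ = f := by
    intro f
    have h1 : ∃ f', mp f' = mp f := ⟨f, rfl⟩
    refine ⟨h1.choose, ?_, horb f _ h1.choose_spec.symm⟩
    refine mem_biUnion.2 ⟨mp f, mem_image_of_mem _ (mem_univ f), ?_⟩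
    have h2 : pick (mp f) = some h1.choose := dif_pos h1
    rw [h2, Option.toFinset_some, mem_singleton]
  have hOk : O.card ≤ k := by
    refine card_biUnion_le.trans ?_
    have h1 : ∀ Q ∈ univ.image mp, (pick Q).toFinset.card ≤ 1 := by
      intro Q _
      rw [Option.card_toFinset]
      rcases pick Q with _ | f <;> simp
    refine (sum_le_sum h1).trans ?_
    rw [sum_const, smul_eq_mul, mul_one]
    refine le_trans (card_le_card ?_) hk
    intro Q hQ
    obtain ⟨f, _, rfl⟩ := mem_image.1 hQ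
    exact mem_image_of_mem _ (mem_univ (s f))
  -- the number of the classes
  have heven : Even (Fintype.card X) := by
    have h1 : ((Fintype.card X : ℕ) : ZMod 2) = 0 := by
      have h2 : ((Fintype.card X : ℕ) : ZMod 2) = ∑ x : X, (1 : ZMod 2) := by
        rw [Finset.sum_const, Finset.card_univ, nsmul_eq_mul, mul_one]
      rw [h2]
      refine Finset.sum_involution (fun x _ => c • x) (fun x _ => ?_) (fun x _ _ => hfree x)
        (fun x _ => Finset.mem_univ _) (fun x _ => hcc x)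
      decide
    exact (ZMod.natCast_eq_zero_iff_even).1 h1
  obtain ⟨g', hg'⟩ := heven
  have hg'2 : Fintype.card X = 2 * g' := by omega
  have hcard : 2 * g' ≤ Fintype.card ι := by
    rw [← hg'2]
    exact Fintype.card_le_of_injective s hsinj
  set R := exp (14 * √(O.card * g') * log (2 * g') * log (2 * g' * (D * w : ℕ))) with hR
  set N₁ : ℝ := max 2 (2 * g' *
    exp (14 * √(k * g') * log (2 * g') * log (2 * g' * (D * w : ℕ)))) with hN₁
  have hspan := span_small hfree hcen hD₀ hv1 O hO hg'2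
  have hRle : Fintype.card X * R ≤ N₁ := by
    refine le_trans ?_ (le_max_right _ _)
    have e0 : (Fintype.card X : ℝ) = 2 * g' := by exact_mod_cast hg'2
    rw [e0]
    rcases Nat.eq_zero_or_pos g' with h1 | h1
    · subst h1; simp
    refine mul_le_mul_of_nonneg_left (exp_le_exp.2 ?_) (by positivity)
    have e1 : (1 : ℝ) ≤ g' := by exact_mod_cast h1
    have e2 : (1 : ℝ) ≤ (D * w : ℕ) := by exact_mod_cast hD₀
    have e3 : (O.card : ℝ) ≤ k := by exact_mod_cast hOk
    have e4 : √((O.card : ℝ) * g') ≤ √((k : ℝ) * g') :=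
      Real.sqrt_le_sqrt (mul_le_mul_of_nonneg_right e3 (by linarith))
    have e7 : 0 ≤ Real.log (2 * g') := Real.log_nonneg (by linarith)
    have e8 : 0 ≤ Real.log (2 * g' * (D * w : ℕ)) := Real.log_nonneg (by nlinarith)
    exact mul_le_mul_of_nonneg_right (mul_le_mul_of_nonneg_right (by linarith) e7) e8
  have hlat : ∀ z : ι → ℤ, EvenRel (L ≃ₐ[ℚ] L) v cls deg z → z ∈ AddSubgroup.closure
      {z' : ι → ℤ | EvenRel (L ≃ₐ[ℚ] L) v cls deg z' ∧
        ((∑ l, |z' l| : ℤ) : ℝ) ≤ 2 * Fintype.card ι * N₁} := fun z hz =>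
    lattice_gen (fun z hz => span_short hcc hcen hvc hspan cls s hcls (le_max_left _ _) hRle hz)
      (le_trans zero_le_two (le_max_left _ _)) hz
  -- the relations
  have hTiff : ∀ b : ι → ℕ, EvenRel (L ≃ₐ[ℚ] L) v cls deg (zv b) ↔ IsT (p ^ e) lam deg b := by
    intro b
    have hpar : Even (∑ l, zv b l * (deg l : ℤ)) ↔ Even (∑ l, deg l * b l) := by
      have h1 : ∑ l, zv b l * (deg l : ℤ) = ((∑ l, deg l * b l : ℕ) : ℤ) := by
        push_cast
        exact sum_congr rfl fun l _ => mul_comm _ _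
      rw [h1, Int.even_coe_nat]
    constructor
    · rintro ⟨h1, h2⟩
      refine isT_of_row_zero he hD h (hpar.1 h2) fun ψ => ?_
      obtain ⟨σ, rfl⟩ := exists_sigma i e₀ ψ
      rw [← h1 σ]
      refine sum_congr rfl fun l _ => ?_
      rw [hrow, mul_comm]
      rfl
    · intro h1
      refine ⟨fun σ => ?_, hpar.2 h1.1⟩
      rw [← row_zero_of_isT he h h1 (emb i e₀ σ)]
      refine sum_congr rfl fun l _ => ?_
      rw [hrow, mul_comm]
      rfl
  let T : AddSubgroup (ι → ℤ) :=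
    { carrier := {z | EvenRel (L ≃ₐ[ℚ] L) v cls deg z}
      add_mem' := by
        rintro a b ⟨h1, h2⟩ ⟨h1', h2'⟩
        refine ⟨fun σ => ?_, ?_⟩
        · simp only [Pi.add_apply, add_mul, sum_add_distrib]
          rw [h1, h1', add_zero]
        · simp only [Pi.add_apply, add_mul, sum_add_distrib]
          exact h2.add h2'
      zero_mem' := ⟨fun σ => by simp, by simp⟩
      neg_mem' := by
        rintro a ⟨h1, h2⟩
        refine ⟨fun σ => ?_, ?_⟩
        · simp only [Pi.neg_apply, neg_mul, sum_neg_distrib]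
          rw [h1, neg_zero]
        · simp only [Pi.neg_apply, neg_mul, sum_neg_distrib]
          exact h2.neg }
  have hTmem : ∀ z, z ∈ T ↔ EvenRel (L ≃ₐ[ℚ] L) v cls deg z := fun z => Iff.rfl
  choose conj hconj1 hconj2 using fun l => hgal l c
  have hcl : ∀ l, lam l * lam (conj l) = (((p ^ e) ^ deg l : ℕ) : K) := by
    intro l
    rw [← hx, ← hx, hconj1, ← map_mul, hcx]
    push_cast
    rw [map_pow, map_natCast, pow_mul]
  have hrowc : ∀ l σ, ρ (conj l) σ = - ρ l σ := by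
    intro l σ
    rw [hρgal c (hconj1 l) (hconj2 l), hρc]
  refine words_of_lattice conj T Alg N hN2 ?_ h0 hadd (fun a l => hrem a l (conj l) (hcl l) (hconj2 l))
    (fun b hb hbN => hshort b ((hTiff b).1 hb) hbN) ?_
  · intro l
    rw [hTmem]
    have hz : ∀ φ : ι → ℤ, ∑ j, zv (pairOf conj l) j * φ j = φ l + φ (conj l) := by
      intro φ
      have h1 : ∀ j, zv (pairOf conj l) j = (if j = l then 1 else 0) + (if j = conj l then 1 else 0) := by
        intro j
        simp only [zv, pairOf, Pi.add_apply, Pi.single_apply]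
        push_cast
        rfl
      simp only [h1, add_mul, sum_add_distrib, ite_mul, one_mul, zero_mul, Finset.sum_ite_eq',
        mem_univ, if_true]
    refine ⟨fun σ => ?_, ?_⟩
    · rw [hz, hrow, hrow, hrowc, add_neg_cancel]
    · rw [hz, hconj2]
      exact Even.add_self _
  · have h1 := hlat (zv a) ((hTiff a).2 ha)
    refine AddSubgroup.closure_mono ?_ h1
    rintro z ⟨h2, h3⟩
    exact ⟨h2, h3.trans (hN g' hcard)⟩

end

end

end Pool.Agent.L7h94.GP
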