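import Pool.Agent.L7h94.GP.Tate

/-!
# Varieties whose cohomology is generated in small degrees
-/

set_option linter.unusedVariables false
set_option linter.unusedSectionVars false
set_option autoImplicit false

open CategoryTheory AlgebraicGeometry CategoryTheory.Limits

universe u v

namespace Pool.Agent.L7h94.GP

open Pool.Agent.H914 Pool.Agent.H447 Pool.Agent.W534 Pool.Agent.Y163 Pool.Agent.R940 VarClass Obj
  WeilCohomology Module

section Lin

variable {K V κ α : Type*} [Field K] [AddCommGroup V] [Module K V]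

/-- The projection of a combination of homogeneous elements. -/
lemma span_homog {A : α → Submodule K V} (hA : iSupIndep A) (v : κ → V) (a : κ → α) {T : Set κ}
    (hv : ∀ i ∈ T, v i ∈ A (a i)) {x : V} {a₀ : α} (hx : x ∈ A a₀)
    (h : x ∈ Submodule.span K (v '' T)) : x ∈ Submodule.span K (v '' {i ∈ T | a i = a₀}) := by
  have key : ∀ z ∈ Submodule.span K (v '' T), ∃ y ∈ Submodule.span K (v '' {i ∈ T | a i = a₀}),
      y ∈ A a₀ ∧ z - y ∈ ⨆ (c : α) (_ : c ≠ a₀), A c := by
    intro z hz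
    induction hz using Submodule.span_induction with
    | mem z hz =>
      obtain ⟨i, hi, rfl⟩ := hz
      by_cases hia : a i = a₀
      · refine ⟨v i, Submodule.subset_span ⟨i, ⟨hi, hia⟩, rfl⟩, hia ▸ hv i hi, ?_⟩
        rw [sub_self]
        exact Submodule.zero_mem _
      · refine ⟨0, Submodule.zero_mem _, Submodule.zero_mem _, ?_⟩
        rw [sub_zero]
        exact Submodule.mem_iSup_of_mem (a i) (Submodule.mem_iSup_of_mem hia (hv i hi))
    | zero =>
      refine ⟨0, Submodule.zero_mem _, Submodule.zero_mem _, ?_⟩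
      rw [sub_zero]
      exact Submodule.zero_mem _
    | add z z' _ _ hz hz' =>
      obtain ⟨y, h1, h2, h3⟩ := hz
      obtain ⟨y', h1', h2', h3'⟩ := hz'
      refine ⟨y + y', Submodule.add_mem _ h1 h1', Submodule.add_mem _ h2 h2', ?_⟩
      rw [add_sub_add_comm]
      exact Submodule.add_mem _ h3 h3'
    | smul c z _ hz =>
      obtain ⟨y, h1, h2, h3⟩ := hz
      refine ⟨c • y, Submodule.smul_mem _ _ h1, Submodule.smul_mem _ _ h2, ?_⟩
      rw [← smul_sub]
      exact Submodule.smul_mem _ _ h3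
  obtain ⟨y, h1, h2, h3⟩ := key x h
  have h4 : x - y = 0 := Submodule.disjoint_def.1 (hA a₀) _ (Submodule.sub_mem _ hx h2) h3
  rw [sub_eq_zero] at h4
  rw [h4]
  exact h1

end Lin

variable {k : Type u} [Field k] {𝒱 : VarClass k} {ops : CycleOps 𝒱}
  {W : WeilCohomology.{u, v} ops} {X Y Z : 𝒱.Obj} {p : ℕ} [hp : Fact p.Prime] (Φ : FrobSystem W p)
  {σ : W.K →+* ℂ}

variable {ι : Type v} {B : HBasis W X ι} {lam : ι → W.K}

/-- A letter at a factor. -/
noncomputable def fac (B : HBasis W X ι) (w n : ℕ) (a : Fin (n + 1) × LW B w) : W.H (pw X n) :=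
  W.map (pr X n a.1) (B.b (inc B w a.2))

/-- The letters generate the cohomology of the powers. -/
lemma adjoin_fac [Finite ι] {w : ℕ}
    (hgen : Algebra.adjoin W.K {x : W.H X | ∃ i, i ≤ w ∧ x ∈ W.gr X i} = ⊤) (n : ℕ) :
    Algebra.adjoin W.K (Set.range (fac B w n)) = ⊤ := by
  classical
  have hft : Fintype ι := Fintype.ofFinite ι
  have h1 : ∀ (i : Fin (n + 1)) (x : W.H X), W.map (pr X n i) x ∈
      Algebra.adjoin W.K (Set.range (fac B w n)) := by
    intro i x
    have h2 : Algebra.adjoin W.K {x : W.H X | ∃ i, i ≤ w ∧ x ∈ W.gr X i} ≤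
        (Algebra.adjoin W.K (Set.range (fac B w n))).comap (W.map (pr X n i)) := by
      refine Algebra.adjoin_le ?_
      rintro y ⟨d, hd, hy⟩
      change W.map (pr X n i) y ∈ Algebra.adjoin W.K (Set.range (fac B w n))
      rcases Nat.eq_zero_or_pos d with rfl | hd0
      · rw [W.gr_zero, Submodule.mem_span_singleton] at hy
        obtain ⟨c, rfl⟩ := hy
        rw [map_smul, map_one]
        exact Subalgebra.smul_mem _ (Subalgebra.one_mem _) c
      · rw [← B.b.sum_repr y, map_sum]
        refine Subalgebra.sum_mem _ fun l _ => ?_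
        rw [map_smul]
        by_cases h0 : B.b.repr y l = 0
        · rw [h0, zero_smul]
          exact Subalgebra.zero_mem _
        · have h3 : B.deg l = d := by
            by_contra hne
            exact h0 (repr_zero (W.isInternal X).submodule_iSupIndep B.b B.deg B.mem hy hne)
          refine Subalgebra.smul_mem _ (Algebra.subset_adjoin ?_) _
          exact ⟨(i, ⟨l, by omega, by omega⟩), rfl⟩
    have h3 : x ∈ Algebra.adjoin W.K {x : W.H X | ∃ i, i ≤ w ∧ x ∈ W.gr X i} := by
      rw [hgen]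
      trivial
    exact h2 h3
  obtain ⟨bs, hbs⟩ := exists_monBasis B n
  rw [eq_top_iff]
  intro x _
  rw [← bs.sum_repr x]
  refine Subalgebra.sum_mem _ fun I _ => Subalgebra.smul_mem _ ?_ _
  rw [hbs, mon_eq]
  refine Subalgebra.list_prod_mem _ fun y hy => ?_
  obtain ⟨i, rfl⟩ := (List.mem_ofFn' _ _).1 hy
  exact h1 i _

/-- The cohomology of the powers is spanned by the products of letters. -/
lemma mem_span_words [Finite ι] {w : ℕ}
    (hgen : Algebra.adjoin W.K {x : W.H X | ∃ i, i ≤ w ∧ x ∈ W.gr X i} = ⊤) (n : ℕ)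
    (x : W.H (pw X n)) : x ∈ Submodule.span W.K
      ((fun L : List (Fin (n + 1) × LW B w) => (L.map (fac B w n)).prod) '' Set.univ) := by
  have h1 : x ∈ Subalgebra.toSubmodule (Algebra.adjoin W.K (Set.range (fac B w n))) := by
    rw [adjoin_fac hgen]
    trivial
  rw [Algebra.adjoin_eq_span] at h1
  refine Submodule.span_mono ?_ h1
  intro y hy
  have hy' : y ∈ Submonoid.closure (Set.range (fac B w n)) := hy
  clear hy
  rw [Set.image_univ]
  induction hy' using Submonoid.closure_induction with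
  | mem y hy =>
    obtain ⟨a, rfl⟩ := hy
    exact ⟨[a], by simp⟩
  | one => exact ⟨[], by simp⟩
  | mul y z _ _ hy hz =>
    obtain ⟨L, hL⟩ := hy
    obtain ⟨L', hL'⟩ := hz
    refine ⟨L ++ L', ?_⟩
    beta_reduce at hL hL' ⊢
    rw [List.map_append, List.prod_append, hL, hL']

/-- A product of letters is the pull-back of a word. -/
lemma prod_fac {w n m : ℕ} (a : Fin (m + 1) → Fin (n + 1) × LW B w) :
    ((List.ofFn a).map (fac B w n)).prod =
      W.map (tup m (fun t => pr X n (a t).1)) (mon B m (fun t => inc B w (a t).2)) := by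
  rw [mon_eq, map_list_prod, List.map_ofFn, List.map_ofFn]
  congr 2
  funext t
  rw [Function.comp_apply, Function.comp_apply, ← W.map_comp, tup_pr]
  rfl

lemma fac_gr {w n m : ℕ} (a : Fin m → Fin (n + 1) × LW B w) :
    ((List.ofFn a).map (fac B w n)).prod ∈
      W.gr (pw X n) (∑ t, B.deg (inc B w (a t).2)) := by
  rw [List.map_ofFn]
  exact ofFn_gr _ _ fun t => W.map_mem _ (B.mem _)

lemma fac_gen (hB : IsEig Φ B lam) {w n S S' : ℕ}
    (hS : ∀ (i : Fin (n + 1)) (t : ℕ) (y : W.H X),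
      frob Φ (pw X n) (S * t) (W.map (pr X n i) y) = W.map (pr X n i) (frob Φ X (S' * t) y))
    (t : ℕ) {m : ℕ} (a : Fin m → Fin (n + 1) × LW B w) :
    ((List.ofFn a).map (fac B w n)).prod ∈
      (frob Φ (pw X n) (S * t)).maxGenEigenspace
        ((∏ j, lam (inc B w (a j).2)) ^ (S' * t)) := by
  rw [← Finset.prod_pow, List.map_ofFn]
  apply ofFn_gen Φ _ (fun j => lam (inc B w (a j).2) ^ (S' * t))
  intro i
  refine gen_semi (f := frob Φ X (S' * t)) (θ := (W.map (pr X n (a i).1)).toLinearMap)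
    (fun x => hS (a i).1 t x) ?_
  have h1 := gen_mono (frob Φ X 1) (lam (inc B w (a i).2)) (S' * t) (hB (inc B w (a i).2))
  rwa [← frob_mul_eq, one_mul] at h1

/-- **From words to Tate classes.** -/
theorem tate_of_words [Finite ι] (hB : IsEig Φ B lam) {w : ℕ} [Fintype (LW B w)]
    [DecidableEq (LW B w)]
    (hgen : Algebra.adjoin W.K {x : W.H X | ∃ i, i ≤ w ∧ x ∈ W.gr X i} = ⊤)
    (hwords : ∀ {n : ℕ} (I : Fin (n + 1) → LW B w),
      IsT (p ^ Φ.e X) (fun l : LW B w => lam (inc B w l)) (fun l => B.deg (inc B w l)) (cnt I) →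
      ∀ {J : ℕ}, ∑ j, B.deg (inc B w (I j)) = 2 * J →
        mon B n (fun j => inc B w (I j)) ∈ spanCycles W (pw X n) J) (n j : ℕ) :
    SemisimpleTateIn Φ (pw X n) j := by
  intro s hs c hc
  obtain ⟨S, S', hS, hS', hSS, h⟩ := frob_pr Φ X n
  have hc' := genTate_mono' Φ s S j hc
  let v : List (Fin (n + 1) × LW B w) → W.H (pw X n) := fun L => (L.map (fac B w n)).prod
  let dg : List (Fin (n + 1) × LW B w) → ℕ := fun L => (L.map fun a => B.deg (inc B w a.2)).sum
  let ev : List (Fin (n + 1) × LW B w) → W.K :=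
    fun L => (L.map fun a => lam (inc B w a.2)).prod ^ (S' * s)
  have hL : ∀ L : List (Fin (n + 1) × LW B w), ∃ (m : ℕ) (a : Fin m → Fin (n + 1) × LW B w),
      L = List.ofFn a := fun L => ⟨_, L.get, (List.ofFn_get L).symm⟩
  have hdg : ∀ {m : ℕ} (a : Fin m → Fin (n + 1) × LW B w), dg (List.ofFn a) =
      ∑ t, B.deg (inc B w (a t).2) := fun a => by
    simp only [dg, List.map_ofFn, List.sum_ofFn]
    rfl
  have hev : ∀ {m : ℕ} (a : Fin m → Fin (n + 1) × LW B w), ev (List.ofFn a) =
      (∏ t, lam (inc B w (a t).2)) ^ (S' * s) := fun a => by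
    simp only [ev, List.map_ofFn, List.prod_ofFn]
    rfl
  have h1 : c ∈ Submodule.span W.K (v '' Set.univ) := mem_span_words hgen n c
  have h2 := span_homog (W.isInternal (pw X n)).submodule_iSupIndep v dg (fun L _ => by
    obtain ⟨m, a, rfl⟩ := hL L
    rw [hdg]
    exact fac_gr a) hc.2 h1
  have h3 := span_homog (Module.End.independent_maxGenEigenspace (frob Φ (pw X n) (S * s))) v ev
    (fun L _ => by
      obtain ⟨m, a, rfl⟩ := hL L
      rw [hev]
      exact fac_gen Φ hB h s a) hc'.1 h2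
  refine (Submodule.span_le.2 ?_) h3
  rintro _ ⟨L, ⟨⟨-, hLd⟩, hLe⟩, rfl⟩
  obtain ⟨m, a, rfl⟩ := hL L
  rw [hdg] at hLd
  rw [hev] at hLe
  rcases m with _ | m
  · -- the empty word
    rw [Fin.sum_univ_zero] at hLd
    obtain rfl : j = 0 := by omega
    refine Submodule.subset_span ⟨0, rfl, (pw X n).V.fundCycle, (pw X n).V.fundCycle_mem, ?_⟩
    rw [W.cl_fund]
    simp [v]
  · change v (List.ofFn a) ∈ spanCycles W (pw X n) j
    have h5 : v (List.ofFn a) = _ := prod_fac a
    rw [h5]
    refine map_span _ (hwords (fun t => (a t).2) ?_ hLd)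
    rw [isT_cnt]
    refine ⟨⟨j, by rw [hLd]; ring⟩, S' * s, Nat.mul_pos hS' hs, ?_⟩
    rw [hLd, mul_comm 2, pow_mul, hLe, card, ← Nat.cast_pow, ← Nat.cast_pow, ← Nat.cast_pow,
      ← pow_mul, ← pow_mul, ← pow_mul]
    congr 2
    calc Φ.e (pw X n) * (S * s) * (j * 2) = (S * Φ.e (pw X n)) * (s * j * 2) := by ring
      _ = Φ.e X * (S' * s * (2 * j)) := by rw [hSS]; ring

end Pool.Agent.L7h94.GP
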