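import Pool.Agent.R940.BGen
import Pool.Agent.L7h94.GP.Family

/-!
# Removal of pairs of conjugate letters
-/

set_option linter.unusedVariables false
set_option linter.unusedSectionVars false
set_option autoImplicit false

open CategoryTheory AlgebraicGeometry CategoryTheory.Limits

universe u v

namespace Pool.Agent.L7h94.GP

open Pool.Agent.H914 Pool.Agent.H447 Pool.Agent.W534 Pool.Agent.Y163 Pool.Agent.R940 VarClass Obj
  WeilCohomology Module

variable {k : Type u} [Field k] {𝒱 : VarClass k} {ops : CycleOps 𝒱}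
  {W : WeilCohomology.{u, v} ops} {X Y Z : 𝒱.Obj} {p : ℕ} (Φ : FrobSystem W p)

/-- Push-forwards of algebraic classes. -/
lemma push_span (f : X ⟶ Y) {i j : ℕ} (h : i + Y.dim = j + X.dim) {γ : W.H X}
    (hγ : γ ∈ spanCycles W X i) : W.push f γ ∈ spanCycles W Y j := by
  induction hγ using Submodule.span_induction with
  | mem x hx =>
    obtain ⟨q, hq, z, hz, rfl⟩ := hx
    obtain rfl : q = i := by exact_mod_cast hq
    exact Submodule.subset_span ⟨j, rfl, ops.push f z, ops.push_mem f hz h, W.cl_push _ _⟩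
  | zero => rw [map_zero]; exact Submodule.zero_mem _
  | add x y _ _ hx hy => rw [map_add]; exact Submodule.add_mem _ hx hy
  | smul a x _ hx => rw [map_smul]; exact Submodule.smul_mem _ _ hx

/-- The projection formula for a product. -/
lemma push_fst_prod (a : W.H X) (b : W.H Y) (hb : b ∈ W.gr Y (2 * Y.dim)) :
    W.push (Obj.fst X Y) (W.map (Obj.fst X Y) a * W.map (Obj.snd X Y) b) = W.tr Y b • a := by
  apply W.tr_ext
  intro x
  have h1 : W.map (Obj.snd X Y) b ∈ W.gr (X.prod Y) (2 * Y.dim) := W.map_mem _ hb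
  rw [W.tr_push, mul_assoc, W.even_comm h1, ← mul_assoc, ← map_mul, W.tr_prod, smul_mul_assoc,
    map_smul, smul_eq_mul, mul_comm]

variable {ι : Type v} {B : HBasis W X ι} {lam : ι → W.K}

/-- One word after the other. -/
def app {α : Type*} {n m : ℕ} (I : Fin (n + 1) → α) (I' : Fin (m + 1) → α) :
    Fin (n + 1 + m + 1) → α := Fin.append (m := n + 1) (n := m + 1) I I'

lemma app_left {α : Type*} {n m : ℕ} (I : Fin (n + 1) → α) (I' : Fin (m + 1) → α)
    (i : Fin (n + 1)) : app I I' (Fin.castAdd (m + 1) i) = I i :=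
  Fin.append_left (m := n + 1) (n := m + 1) I I' i

lemma app_right {α : Type*} {n m : ℕ} (I : Fin (n + 1) → α) (I' : Fin (m + 1) → α)
    (j : Fin (m + 1)) : app I I' (Fin.natAdd (n + 1) j) = I' j :=
  Fin.append_right (m := n + 1) (n := m + 1) I I' j

lemma ofFn_app {α : Type*} {n m : ℕ} (f : Fin (n + 1 + m + 1) → α) :
    List.ofFn f = (List.ofFn fun i : Fin (n + 1) => f (Fin.castAdd (m + 1) i)) ++
      List.ofFn fun j : Fin (m + 1) => f (Fin.natAdd (n + 1) j) :=
  List.ofFn_add (n := n + 1) (m := m + 1) (f := f)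

/-- Two words, one after the other. -/
lemma mon_append (B : HBasis W X ι) {n m : ℕ} (I : Fin (n + 1) → ι) (I' : Fin (m + 1) → ι) :
    ∃ φ : (pw X n).prod (pw X m) ⟶ pw X (n + 1 + m),
      W.map φ (mon B (n + 1 + m) (app I I')) =
        W.map (Obj.fst _ _) (mon B n I) * W.map (Obj.snd _ _) (mon B m I') := by
  let F : Fin (n + 1 + m + 1) → ((pw X n).prod (pw X m) ⟶ X) :=
    app (fun i => Obj.fst (pw X n) (pw X m) ≫ pr X n i)
      (fun j => Obj.snd (pw X n) (pw X m) ≫ pr X m j)
  refine ⟨tup (n + 1 + m) F, ?_⟩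
  rw [mon_eq, mon_eq, mon_eq, map_list_prod, map_list_prod, map_list_prod, ← List.prod_append,
    List.map_ofFn, List.map_ofFn, List.map_ofFn, ofFn_app]
  congr 2
  · congr 1
    funext i
    rw [Function.comp_apply, Function.comp_apply, ← W.map_comp, ← W.map_comp, tup_pr, app_left]
    simp only [F, app_left]
  · congr 1
    funext i
    rw [Function.comp_apply, Function.comp_apply, ← W.map_comp, ← W.map_comp, tup_pr, app_right]
    simp only [F, app_right]

/-- **Removal of a block.** -/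
lemma remove_block (hB : IsEig Φ B lam) {n m J : ℕ} (I : Fin (n + 1) → ι) (I' : Fin (m + 1) → ι)
    (hT : ∀ j, SemisimpleTateIn Φ (pw X m) j) {s J' : ℕ} (hs : 0 < s)
    (hI' : mon B m I' ∈ genTate Φ (pw X m) s J') (hne : mon B m I' ≠ 0)
    (h : mon B (n + 1 + m) (app I I') ∈ spanCycles W (pw X (n + 1 + m)) ((J + J' : ℕ) : ℤ)) :
    mon B n I ∈ spanCycles W (pw X n) J := by
  have hJ' : J' ≤ (pw X m).dim := by
    by_contra hlt
    apply hne
    have h1 := hI'.2
    rw [W.gr_eq_bot _ _ (by omega)] at h1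
    exact (Submodule.mem_bot _).1 h1
  -- the dual class
  obtain ⟨y, hy, hy0⟩ : ∃ y ∈ genTate Φ (pw X m) s ((pw X m).dim - J'),
      W.tr (pw X m) (mon B m I' * y) ≠ 0 := by
    by_contra hcon
    push Not at hcon
    exact hne (genTate_nondeg Φ (by omega) hI' hcon)
  have hyS := hT _ s hs hy
  obtain ⟨φ, hφ⟩ := mon_append B I I'
  have h1 := map_span φ h
  rw [hφ] at h1
  have h2 := span_mul h1 (map_span (Obj.snd (pw X n) (pw X m)) hyS)
  rw [mul_assoc, ← map_mul] at h2
  have h3 : ((J + J' : ℕ) : ℤ) + (((pw X m).dim - J' : ℕ) : ℤ) = ((J + (pw X m).dim : ℕ) : ℤ) := by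
    omega
  rw [h3] at h2
  have h4 := push_span (Obj.fst (pw X n) (pw X m)) (j := J) (by rw [dim_prod]; omega) h2
  have h5 : mon B m I' * y ∈ W.gr (pw X m) (2 * (pw X m).dim) := by
    have h6 := W.mul_mem hI'.2 hy.2
    rwa [show 2 * J' + 2 * ((pw X m).dim - J') = 2 * (pw X m).dim by omega] at h6
  rw [push_fst_prod _ _ h5] at h4
  have h6 := Submodule.smul_mem _ (W.tr (pw X m) (mon B m I' * y))⁻¹ h4
  rwa [smul_smul, inv_mul_cancel₀ hy0, one_smul] at h6

end Pool.Agent.L7h94.GP
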