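import Pool.Agent.L7h94.GP.Gen
import Pool.Agent.L7h94.GP.Defs

/-!
# One power decides the Tate conjecture for all powers
-/

set_option linter.unusedVariables false
set_option linter.unusedSectionVars false
set_option autoImplicit false

open CategoryTheory AlgebraicGeometry CategoryTheory.Limits

universe u v

namespace Pool.Agent.L7h94.GP

open Pool.Agent.H914 Pool.Agent.H447 Pool.Agent.W534 Pool.Agent.Y163 Pool.Agent.R940 VarClass Obj
  WeilCohomology Module

/-- The numerical part. -/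
theorem numeric_N {β m r g' D w : ℕ} (hD : 1 ≤ D) (hw : 1 ≤ w) (hmβ : m ≤ β) (hg : 2 * g' ≤ m)
    (hr : 1 ≤ m → 1 ≤ r) {N : ℝ} (hN0 : 0 ≤ N)
    (hN : Real.exp (12 * √(r * β) * Real.log (2 * β) * Real.log (2 * β * (D * w : ℕ))) ≤ N) :
    2 * (m : ℝ) * max 2 (2 * g' *
      Real.exp (14 * √(r * g') * Real.log (2 * g') * Real.log (2 * g' * (D * w : ℕ)))) ≤ N := by
  rcases Nat.eq_zero_or_pos m with rfl | hm
  · simpa using hN0
  refine le_trans ?_ hN
  have hr1 := hr hm
  have hDw : 1 ≤ D * w := Nat.mul_pos hD hw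
  have e1 : (1 : ℝ) ≤ β := by exact_mod_cast le_trans (Nat.succ_le_of_lt hm) hmβ
  have e2 : (1 : ℝ) ≤ (D * w : ℕ) := by exact_mod_cast hDw
  have e3 : (1 : ℝ) ≤ r := by exact_mod_cast hr1
  have e4 : (m : ℝ) ≤ β := by exact_mod_cast hmβ
  have hs1 : 1 ≤ √((r : ℝ) * β) := by
    rw [show (1 : ℝ) = √1 by simp]
    apply Real.sqrt_le_sqrt
    nlinarith
  set s := √((r : ℝ) * β)
  have hl2 := Real.log_two_gt_d9
  have hl1 : Real.log 2 ≤ Real.log (2 * (β : ℝ)) := Real.log_le_log two_pos (by linarith)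
  set Λ := Real.log (2 * (β : ℝ)) with hΛ
  have hl3 : Λ ≤ Real.log (2 * (β : ℝ) * (D * w : ℕ)) :=
    Real.log_le_log (by linarith) (le_mul_of_one_le_right (by linarith) e2)
  set Λ' := Real.log (2 * (β : ℝ) * (D * w : ℕ)) with hΛ'
  have hΛ0 : 0 < Λ := by linarith
  have hΛ'0 : 0 < Λ' := by linarith
  have hβexp : 2 * (β : ℝ) = Real.exp Λ := by rw [hΛ, Real.exp_log (by linarith)]
  rcases Nat.eq_zero_or_pos g' with rfl | hg0
  · -- no classes
    have h1 : max (2 : ℝ) (2 * ((0 : ℕ) : ℝ) * Real.exp (14 * √(r * ((0 : ℕ) : ℝ)) *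
        Real.log (2 * ((0 : ℕ) : ℝ)) * Real.log (2 * ((0 : ℕ) : ℝ) * (D * w : ℕ)))) = 2 := by
      simp
    rw [h1]
    have h2 : 2 * (m : ℝ) * 2 ≤ Real.exp Λ * Real.exp Λ := by
      rw [← hβexp]
      nlinarith
    refine h2.trans ?_
    rw [← Real.exp_add]
    apply Real.exp_le_exp.2
    have h3 : Λ * Λ ≤ Λ * Λ' := mul_le_mul_of_nonneg_left hl3 hΛ0.le
    have h4 : Λ * Λ' ≤ s * (Λ * Λ') := le_mul_of_one_le_left (by positivity) hs1
    nlinarith
  · have f1 : (1 : ℝ) ≤ g' := by exact_mod_cast hg0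
    have f2 : 2 * (g' : ℝ) ≤ β := by exact_mod_cast hg.trans hmβ
    have f3 : 0 ≤ Real.log (2 * (g' : ℝ)) := Real.log_nonneg (by linarith)
    have f4 : Real.log (2 * (g' : ℝ)) ≤ Λ := Real.log_le_log (by linarith) (by linarith)
    have f5 : 0 ≤ Real.log (2 * (g' : ℝ) * (D * w : ℕ)) := Real.log_nonneg (by nlinarith)
    have f6 : Real.log (2 * (g' : ℝ) * (D * w : ℕ)) ≤ Λ' :=
      Real.log_le_log (by positivity) (by nlinarith)
    have f7 : 14 * √((r : ℝ) * g') ≤ 10 * s := by
      have h1 : (14 * √((r : ℝ) * g')) ^ 2 ≤ (10 * s) ^ 2 := by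
        rw [mul_pow, mul_pow, Real.sq_sqrt (by positivity), Real.sq_sqrt (by positivity)]
        nlinarith
      exact abs_le_of_sq_le_sq' h1 (by positivity) |>.2
    have f8 : 14 * √((r : ℝ) * g') * Real.log (2 * g') * Real.log (2 * g' * (D * w : ℕ)) ≤
        10 * s * Λ * Λ' := by
      refine mul_le_mul (mul_le_mul f7 f4 f3 (by positivity)) f6 f5 (by positivity)
    have f9 : max (2 : ℝ) (2 * g' * Real.exp (14 * √(r * g') * Real.log (2 * g') *
        Real.log (2 * g' * (D * w : ℕ)))) ≤ β * Real.exp (10 * s * Λ * Λ') := by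
      refine max_le ?_ ?_
      · have : (1 : ℝ) ≤ Real.exp (10 * s * Λ * Λ') := Real.one_le_exp (by positivity)
        nlinarith
      · exact mul_le_mul f2 (Real.exp_le_exp.2 f8) (Real.exp_pos _).le (by positivity)
    calc 2 * (m : ℝ) * max 2 (2 * g' *
        Real.exp (14 * √(r * g') * Real.log (2 * g') * Real.log (2 * g' * (D * w : ℕ))))
        ≤ 2 * β * (β * Real.exp (10 * s * Λ * Λ')) :=
          mul_le_mul (by linarith) f9 (by positivity) (by positivity)
      _ ≤ (Real.exp Λ * Real.exp Λ) * Real.exp (10 * s * Λ * Λ') := by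
          rw [← mul_assoc]
          refine mul_le_mul_of_nonneg_right ?_ (Real.exp_pos _).le
          rw [← hβexp]
          nlinarith
      _ = Real.exp (Λ + Λ + 10 * s * Λ * Λ') := by rw [← Real.exp_add, ← Real.exp_add]
      _ ≤ _ := by
          apply Real.exp_le_exp.2
          have h3 : Λ * Real.log 4 ≤ Λ * Λ' := by
            refine mul_le_mul_of_nonneg_left ?_ hΛ0.le
            refine le_trans (Real.log_le_log (by norm_num) ?_) hl3
            linarith
          have h4 : Λ * Λ' ≤ s * (Λ * Λ') := le_mul_of_one_le_left (by positivity) hs1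
          have h5 : (1 : ℝ) ≤ Real.log 4 := by
            rw [show (4 : ℝ) = 2 ^ 2 by norm_num, Real.log_pow]
            push_cast
            linarith
          nlinarith

variable {k : Type u} [Field k] {𝒱 : VarClass k} {ops : CycleOps 𝒱}
  {W : WeilCohomology.{u, v} ops} {X Y Z : 𝒱.Obj} {p : ℕ} [hp : Fact p.Prime] {Φ : FrobSystem W p}
  {σ : W.K →+* ℂ}

/-- The cohomology is generated by the classes of all degrees. -/
lemma generated_all (W : WeilCohomology.{u, v} ops) (X : 𝒱.Obj) :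
    GeneratedInDegree W X (2 * X.dim) := by
  classical
  rw [GeneratedInDegree, eq_top_iff]
  intro x _
  have h1 : x ∈ ⨆ i, W.gr X i := by
    rw [(W.isInternal X).submodule_iSup_eq_top]
    trivial
  induction h1 using Submodule.iSup_induction' with
  | mem i x hx =>
    rcases Nat.lt_or_ge (2 * X.dim) i with h | h
    · rw [W.gr_eq_bot X i h, Submodule.mem_bot] at hx
      rw [hx]
      exact Subalgebra.zero_mem _
    · exact Algebra.subset_adjoin ⟨i, h, hx⟩
  | zero => exact Subalgebra.zero_mem _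
  | add x y _ _ hx hy => exact Subalgebra.add_mem _ (hx trivial) (hy trivial)

/-- The number of the letters. -/
lemma card_letters {ι : Type v} [Fintype ι] (B : HBasis W X ι) (w : ℕ) [Fintype (LW B w)] :
    Fintype.card (LW B w) ≤ bettiUpTo W X w := by
  classical
  rw [bettiUpTo, ← Finset.card_univ, Finset.card_eq_sum_card_fiberwise
    (f := fun l : LW B w => B.deg (inc B w l)) (t := Finset.Icc 1 w)
    (fun l _ => Finset.mem_coe.2 (Finset.mem_Icc.2 l.2))]
  refine Finset.sum_le_sum fun i _ => ?_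
  let s := {l ∈ (Finset.univ : Finset (LW B w)) | B.deg (inc B w l) = i}
  let v : s → W.gr X i := fun l => ⟨B.b (inc B w l.1), by
    have h1 := (Finset.mem_filter.1 l.2).2
    rw [← h1]
    exact B.mem _⟩
  have hv : LinearIndependent W.K v := by
    refine LinearIndependent.of_comp (W.gr X i).subtype ?_
    refine B.b.linearIndependent.comp (fun l : s => inc B w l.1) ?_
    intro l l' h
    exact Subtype.ext (Subtype.ext h)
  have h2 := hv.fintype_card_le_finrank
  rwa [Fintype.card_coe] at h2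

/-- The number of the minimal polynomials. -/
lemma card_minpolys {ι : Type v} [Fintype ι] {B : HBasis W X ι} {lam : ι → W.K}
    (hB : IsEig Φ B lam) (w : ℕ) [Fintype (LW B w)] :
    (Finset.univ.image fun l : LW B w => minpoly ℚ (lam (inc B w l))).card ≤
      numClasses Φ σ X w := by
  classical
  rw [numClasses, ← Set.ncard_coe_finset]
  refine Set.ncard_le_ncard ?_ ?_
  · intro Q hQ
    rw [Finset.coe_image] at hQ
    obtain ⟨l, -, rfl⟩ := hQ
    refine ⟨B.deg (inc B w l), l.2.1, l.2.2, σ (lam (inc B w l)), ?_, ?_⟩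
    · rw [frobPoly_eq]
      exact (root_charpoly hB _).map
    · exact minpoly.algHom_eq σ.toRatAlgHom σ.injective (lam (inc B w l))
  · refine Set.Finite.subset (s := (fun z : ℂ => minpoly ℚ z) ''
      (⋃ i ∈ Finset.Icc 1 w, {z | (frobPoly Φ σ X 1 i).IsRoot z})) ?_ ?_
    · refine Set.Finite.image _ (Set.Finite.biUnion (Finset.finite_toSet _) fun i _ => ?_)
      refine Set.Finite.subset (Multiset.finite_toSet (frobPoly Φ σ X 1 i).roots) ?_
      intro z hz
      have h0 : frobPoly Φ σ X 1 i ≠ 0 := by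
        rw [frobPoly_eq]
        exact ((LinearMap.charpoly_monic _).map σ).ne_zero
      exact (Polynomial.mem_roots h0).2 hz
    · rintro Q ⟨i, h1, h2, z, hz, rfl⟩
      exact ⟨z, Set.mem_biUnion (Finset.mem_coe.2 (Finset.mem_Icc.2 ⟨h1, h2⟩)) hz, rfl⟩

/-- **One power decides the Tate conjecture for all powers.** -/
theorem one_power [IsAlgClosed W.K] (hRH : ∀ Z, RiemannHyp Φ σ Z)
    (hint : HasIntegralPolys Φ σ X) {w : ℕ} (hw : 1 ≤ w) (hgen : GeneratedInDegree W X w) {D : ℕ}
    (hD : IsSlopeDenominator Φ σ X D) {N : ℕ} (hN2 : 2 ≤ N)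
    (hN : Real.exp (12 * √(numClasses Φ σ X w * bettiUpTo W X w) *
      Real.log (2 * bettiUpTo W X w) * Real.log (2 * bettiUpTo W X w * (D * w : ℕ))) ≤ N)
    (h : ∀ j, j ≤ (pw X (N - 1)).dim → PoleFormula Φ σ (pw X (N - 1)) j) :
    ∀ n j, j ≤ (pw X n).dim → PoleFormula Φ σ (pw X n) j := by
  classical
  obtain ⟨ι, hfin, B, lam, hB⟩ := exists_ebasis Φ X
  have hft : Fintype ι := Fintype.ofFinite ι
  have hfl : Fintype (LW B w) := by unfold LW; infer_instance
  have h1 := semisimple_of_poles (hRH _) h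
  have hr := card_minpolys (σ := σ) hB w
  have hr1 : 1 ≤ Fintype.card (LW B w) → 1 ≤ numClasses Φ σ X w := by
    intro hc
    refine le_trans ?_ hr
    obtain ⟨l⟩ := Fintype.card_pos_iff.1 hc
    exact Finset.card_pos.2 ⟨_, Finset.mem_image_of_mem _ (Finset.mem_univ l)⟩
  have hT : ∀ n j, SemisimpleTateIn Φ (pw X n) j := by
    refine tate_of_words Φ hB hgen fun {n} I hI {J} hJ => ?_
    refine words_alg Φ (hRH X) hint hD hB hw hr hN2 (fun g' hg' => ?_) (fun m hm j => ?_) I hI hJ
    · exact numeric_N hD.1 hw (card_letters B w) hg' hr1 (Nat.cast_nonneg N) hN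
    · exact tate_of_le (n := N - 1) (by omega) h1 j
  intro n j hj
  exact pole_of_semisimple (hRH _) (hT n) hj

end Pool.Agent.L7h94.GP
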