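import Pool.Agent.L7h94.GP.Geo

/-!
# The Tate classes on the powers of a variety
-/

set_option linter.unusedVariables false
set_option linter.unusedSectionVars false
set_option autoImplicit false

open CategoryTheory AlgebraicGeometry CategoryTheory.Limits

universe u v

namespace Pool.Agent.L7h94.GP

open Pool.Agent.H914 Pool.Agent.H447 Pool.Agent.W534 Pool.Agent.Y163 Pool.Agent.R940 VarClass Obj
  WeilCohomology Module

variable {k : Type u} [Field k] {𝒱 : VarClass k} {ops : CycleOps 𝒱}
  {W : WeilCohomology.{u, v} ops} {X Y Z : 𝒱.Obj} {p : ℕ} [hp : Fact p.Prime] (Φ : FrobSystem W p)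
  {σ : W.K →+* ℂ}

variable {ι : Type v} {B : HBasis W X ι} {lam : ι → W.K}

/-- The letters of the degrees `1`, ..., `w`. -/
def LW (B : HBasis W X ι) (w : ℕ) : Type v := {l : ι // 1 ≤ B.deg l ∧ B.deg l ≤ w}

/-- the inclusion of the letters -/
def inc (B : HBasis W X ι) (w : ℕ) (l : LW B w) : ι := l.1

/-- A word is Tate. -/
lemma isT_cnt {κ : Type*} [Fintype κ] [DecidableEq κ] {q : ℕ} {μ : κ → W.K} {d : κ → ℕ} {n : ℕ}
    (I : Fin n → κ) : IsT q μ d (cnt I) ↔ Even (∑ j, d (I j)) ∧
      ∃ s : ℕ, 0 < s ∧ (∏ j, μ (I j)) ^ (2 * s) = (q : W.K) ^ (s * ∑ j, d (I j)) := by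
  unfold IsT
  rw [prod_cnt, sum_cnt_nat]

/-- An eigenvalue is the eigenvalue of a letter. -/
lemma exists_letter [Finite ι] (hB : IsEig Φ B lam) {i : ℕ} {y : W.K}
    (hy : (frobOn Φ X 1 i).charpoly.IsRoot y) : ∃ l, B.deg l = i ∧ lam l = y := by
  rw [← Module.End.hasEigenvalue_iff_isRoot_charpoly] at hy
  obtain ⟨v, hv⟩ := hy.exists_hasEigenvector
  have hv1 : (frobOn Φ X 1 i) v = y • v := hv.apply_eq_smul
  set x : W.H X := (v : W.H X) with hx
  have hx0 : x ≠ 0 := fun h => hv.2 (Subtype.ext h)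
  have hx1 : frob Φ X 1 x = y • x := congrArg Subtype.val hv1
  have hx2 : x ∈ (frob Φ X 1).maxGenEigenspace y := by
    rw [Module.End.mem_maxGenEigenspace]
    refine ⟨1, ?_⟩
    rw [pow_one, LinearMap.sub_apply, LinearMap.smul_apply, Module.End.one_apply, hx1, sub_self]
  obtain ⟨l, hl⟩ : ∃ l, B.b.repr x l ≠ 0 := by
    by_contra hcon
    push Not at hcon
    apply hx0
    rw [← B.b.repr.map_eq_zero_iff]
    exact Finsupp.ext hcon
  refine ⟨l, ?_, ?_⟩
  · by_contra hne
    exact hl (repr_zero (W.isInternal X).submodule_iSupIndep B.b B.deg B.mem v.2 hne)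
  · by_contra hne
    exact hl (repr_zero (Module.End.independent_maxGenEigenspace (frob Φ X 1)) B.b lam hB hx2 hne)

/-- The letters are stable under conjugation. -/
lemma letters_stable [Finite ι] (hB : IsEig Φ B lam) (hint : HasIntegralPolys Φ σ X) {w : ℕ}
    (l : LW B w) (y : W.K) (hy : Polynomial.aeval y (minpoly ℚ (lam (inc B w l))) = 0) :
    ∃ l' : LW B w, lam (inc B w l') = y ∧ B.deg (inc B w l') = B.deg (inc B w l) := by
  obtain ⟨P, h1, h2, h3⟩ := exists_poly (σ := σ) hB hint (inc B w l)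
  have h4 : (frobOn Φ X 1 (B.deg (inc B w l))).charpoly = P.map (Int.castRingHom W.K) := by
    apply Polynomial.map_injective σ σ.injective
    rw [← frobPoly_eq, h2, Polynomial.map_map]
    congr 1
    exact RingHom.ext_int _ _
  have h5 : Polynomial.aeval y P = 0 := aeval_of_minpoly h3 hy
  obtain ⟨l', hl1, hl2⟩ := exists_letter Φ hB (i := B.deg (inc B w l)) (y := y) (by
    rw [h4, Polynomial.IsRoot.def, Polynomial.eval_map]
    exact h5)
  refine ⟨⟨l', ?_⟩, hl2, hl1⟩
  rw [hl1]
  exact l.2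

/-- **The short words decide.** -/
theorem words_alg [IsAlgClosed W.K] [Fintype ι] [DecidableEq ι] (hRH : RiemannHyp Φ σ X)
    (hint : HasIntegralPolys Φ σ X) {D : ℕ} (hD : IsSlopeDenominator Φ σ X D)
    (hB : IsEig Φ B lam) {w : ℕ} (hw1 : 1 ≤ w) [Fintype (LW B w)] [DecidableEq (LW B w)] {r N : ℕ}
    (hr : (Finset.univ.image fun l : LW B w => minpoly ℚ (lam (inc B w l))).card ≤ r)
    (hN2 : 2 ≤ N) (hN : ∀ g' : ℕ, 2 * g' ≤ Fintype.card (LW B w) →
      2 * (Fintype.card (LW B w) : ℝ) * max 2 (2 * g' *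
      Real.exp (14 * √(r * g') * Real.log (2 * g') * Real.log (2 * g' * (D * w : ℕ)))) ≤ N)
    (hT : ∀ m, m + 1 ≤ N → ∀ j, SemisimpleTateIn Φ (pw X m) j) {n : ℕ} (I : Fin (n + 1) → LW B w)
    (hI : IsT (p ^ Φ.e X) (fun l : LW B w => lam (inc B w l)) (fun l => B.deg (inc B w l)) (cnt I))
    {J : ℕ} (hJ : ∑ j, B.deg (inc B w (I j)) = 2 * J) :
    mon B n (fun j => inc B w (I j)) ∈ spanCycles W (pw X n) J := by
  have hfam := weilFamily (σ := σ) hB hRH hint hD
  have hfam' : IsWeilFamily p (Φ.e X) D (fun l : LW B w => lam (inc B w l))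
      (fun l => B.deg (inc B w l)) :=
    ⟨fun l => hfam.int _, fun l => hfam.arch _, fun l => hfam.slope _⟩
  let Alg : (LW B w → ℕ) → Prop := fun a => Even (∑ l, B.deg (inc B w l) * a l) ∧
    ∀ (n : ℕ) (I : Fin (n + 1) → LW B w), cnt I = a → ∀ J : ℕ,
      ∑ j, B.deg (inc B w (I j)) = 2 * J → mon B n (fun j => inc B w (I j)) ∈
        spanCycles W (pw X n) J
  have hcnt : ∀ {n : ℕ} (I : Fin n → LW B w), ∑ j, B.deg (inc B w (I j)) =
      ∑ l, B.deg (inc B w l) * cnt I l := fun I => sum_cnt_nat I (fun l => B.deg (inc B w l))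
  -- the Tate classes of the words
  have hgen : ∀ {n : ℕ} (I : Fin (n + 1) → LW B w), IsT (p ^ Φ.e X)
      (fun l : LW B w => lam (inc B w l)) (fun l => B.deg (inc B w l)) (cnt I) → ∀ {J : ℕ},
      ∑ j, B.deg (inc B w (I j)) = 2 * J → ∃ s, 0 < s ∧ mon B n (fun j => inc B w (I j)) ∈
        genTate Φ (pw X n) s J := by
    intro n I hI J hJ
    refine mon_genTate Φ hB (I := fun j => inc B w (I j)) ?_ hJ
    rw [isT_cnt] at hI ⊢
    exact hI
  have key : Alg (cnt I) := by
    refine family_gen (Φ.e_pos X) hD.1 hfam' (fun l y hy => letters_stable Φ hB hint l y hy) hw1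
      (fun l => l.2.2) hr (N := (N : ℝ)) (by exact_mod_cast hN2) hN Alg ?_ ?_ ?_ ?_ hI
    · -- zero
      refine ⟨by simp, fun n I hI => ?_⟩
      have h1 := sum_cnt_one I
      rw [hI] at h1
      simp at h1
    · -- sums
      rintro a b ⟨ha, ha'⟩ ⟨hb, hb'⟩
      refine ⟨?_, fun n I hI J hJ => ?_⟩
      · simp only [Pi.add_apply, mul_add, Finset.sum_add_distrib]
        exact ha.add hb
      rcases eq_or_ne a 0 with rfl | ha0
      · exact hb' n I (by rw [hI, zero_add]) J hJ
      rcases eq_or_ne b 0 with rfl | hb0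
      · exact ha' n I (by rw [hI, add_zero]) J hJ
      obtain ⟨x, y, e, e', hperm, h1, h2⟩ := exists_subword I a (fun l => by
        rw [hI]; exact Nat.le_add_right _ _)
      have h2' : cnt (I ∘ e') = b := by rw [h2, hI, add_tsub_cancel_left]
      have hpos : ∀ c : LW B w → ℕ, c ≠ 0 → 0 < ∑ l, c l := by
        intro c hc
        obtain ⟨l, hl⟩ := Function.ne_iff.1 hc
        exact lt_of_lt_of_le (Nat.pos_of_ne_zero hl)
          (Finset.single_le_sum (fun _ _ => Nat.zero_le _) (Finset.mem_univ l))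
      have hx : ∑ l, a l = x := by rw [← h1, sum_cnt_one]
      have hy : ∑ l, b l = y := by rw [← h2', sum_cnt_one]
      have hx0 := hpos a ha0
      have hy0 := hpos b hb0
      obtain ⟨x, rfl⟩ : ∃ r, x = r + 1 := ⟨x - 1, by omega⟩
      obtain ⟨y, rfl⟩ : ∃ r, y = r + 1 := ⟨y - 1, by omega⟩
      obtain ⟨ε, hε⟩ := mon_split B (fun j => inc B w (I j)) e e' hperm
      obtain ⟨J₁, hJ₁⟩ := ha
      obtain ⟨J₂, hJ₂⟩ := hb
      have hJ₁' : ∑ j, B.deg (inc B w ((I ∘ e) j)) = 2 * J₁ := by rw [hcnt, h1, hJ₁]; ring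
      have hJ₂' : ∑ j, B.deg (inc B w ((I ∘ e') j)) = 2 * J₂ := by rw [hcnt, h2', hJ₂]; ring
      have hJJ : J₁ + J₂ = J := by
        have h3 : ∑ j, B.deg (inc B w (I j)) = ∑ j, B.deg (inc B w ((I ∘ e) j)) +
            ∑ j, B.deg (inc B w ((I ∘ e') j)) := by
          rw [hcnt, hcnt, hcnt, h1, h2', hI, ← Finset.sum_add_distrib]
          exact Finset.sum_congr rfl fun l _ => by rw [Pi.add_apply, mul_add]
        omega
      have h3 := map_span (tup x (fun i => pr X n (e i))) (ha' x (I ∘ e) h1 J₁ hJ₁')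
      have h4 := map_span (tup y (fun i => pr X n (e' i))) (hb' y (I ∘ e') h2' J₂ hJ₂')
      rw [hε, ← hJJ]
      push_cast
      exact Submodule.smul_mem _ _ (span_mul h3 h4)
    · -- removal of pairs
      rintro a l l' hll hdeg ⟨ha, ha'⟩
      have hsum : ∑ j, B.deg (inc B w j) * (a + (Pi.single l 1 + Pi.single l' 1) : LW B w → ℕ) j =
          ∑ j, B.deg (inc B w j) * a j + 2 * B.deg (inc B w l) := by
        simp only [Pi.add_apply, mul_add, Finset.sum_add_distrib]
        rw [Finset.sum_eq_single (f := fun j => B.deg (inc B w j) *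
            (Pi.single l 1 : LW B w → ℕ) j) l, Finset.sum_eq_single
            (f := fun j => B.deg (inc B w j) * (Pi.single l' 1 : LW B w → ℕ) j) l',
          Pi.single_eq_same, Pi.single_eq_same, hdeg]
        · ring
        · intro j _ hj
          rw [Pi.single_eq_of_ne hj, mul_zero]
        · intro h; exact absurd (Finset.mem_univ _) h
        · intro j _ hj
          rw [Pi.single_eq_of_ne hj, mul_zero]
        · intro h; exact absurd (Finset.mem_univ _) h
      have heven : Even (∑ l, B.deg (inc B w l) * a l) := by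
        rw [hsum] at ha
        exact (Nat.even_add.1 ha).2 (even_two_mul _)
      refine ⟨heven, fun n I hI J hJ => ?_⟩
      let I' : Fin (1 + 1) → LW B w := ![l, l']
      have hcI' : ∀ m, cnt I' m = (Pi.single l 1 + Pi.single l' 1 : LW B w → ℕ) m := by
        intro m
        rw [cnt, Finset.card_filter, Fin.sum_univ_two, Pi.add_apply, Pi.single_apply,
          Pi.single_apply]
        simp only [I', Matrix.cons_val_zero, Matrix.cons_val_one, eq_comm]
        congr
      have hcapp : cnt (app I I') = a + (Pi.single l 1 + Pi.single l' 1) := by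
        funext m
        rw [Pi.add_apply, ← hI, ← hcI', cnt, cnt, cnt, Finset.card_filter, Finset.card_filter,
          Finset.card_filter]
        refine (Fin.sum_univ_add (a := n + 1) (b := 1 + 1) (fun i => if app I I' i = m then 1 else 0)).trans ?_
        congr 1
        · exact Finset.sum_congr rfl fun i _ => by rw [app_left]
        · exact Finset.sum_congr rfl fun i _ => by rw [app_right]
      have hdI' : ∑ j, B.deg (inc B w (I' j)) = 2 * B.deg (inc B w l) := by
        rw [Fin.sum_univ_two]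
        simp only [I', Matrix.cons_val_zero, Matrix.cons_val_one]
        rw [hdeg]
        ring
      have hTI' : IsT (p ^ Φ.e X) (fun l : LW B w => lam (inc B w l))
          (fun l => B.deg (inc B w l)) (cnt I') := by
        rw [isT_cnt, hdI']
        refine ⟨even_two_mul _, 1, one_pos, ?_⟩
        rw [Fin.prod_univ_two]
        simp only [I', Matrix.cons_val_zero, Matrix.cons_val_one]
        rw [hll]
        push_cast
        rw [← pow_mul]
        congr 1
        ring
      obtain ⟨s, hs, hg⟩ := hgen I' hTI' hdI'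
      have h1 := ha' (n + 1 + 1) (app I I') hcapp (J + B.deg (inc B w l)) (by
        rw [hcnt, hcapp, hsum, ← hI, ← hcnt, hJ]
        ring)
      have h2 : (fun j => inc B w (app I I' j)) = app (fun j => inc B w (I j))
          (fun j => inc B w (I' j)) := by
        funext j
        refine Fin.addCases (m := n + 1) (n := 1 + 1) (fun i => ?_) (fun i => ?_) j
        · rw [app_left, app_left]
        · rw [app_right, app_right]
      rw [h2] at h1
      obtain ⟨bs, hbs⟩ := exists_monBasis B 1
      refine remove_block Φ hB _ _ (hT 1 hN2) hs hg ?_ h1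
      rw [← hbs]
      exact bs.ne_zero _
    · -- short words
      intro a ha haN
      refine ⟨ha.1, fun n I hI J hJ => ?_⟩
      rw [← hI] at ha
      obtain ⟨s, hs, h1⟩ := hgen I ha hJ
      refine hT n ?_ J s hs h1
      rw [← hI, sum_cnt_one] at haN
      exact_mod_cast haN
  exact key.2 n I rfl J hJ

end Pool.Agent.L7h94.GP
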